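import Mathlib
import Pool.Agent.Helper11.CurveDegree

/-!
Divisors, Riemann-Roch spaces and rank two vector bundles on the smooth projective curve with
function field `F` over the algebraically closed field `k`.
-/

open Module Pool.Agent.Helper11 IntermediateField

namespace Pool.Agent.Helper24.Coh

universe u

variable {k F : Type u} [Field k] [Field F] [Algebra k F]

/-- the degree of a divisor -/
noncomputable def deg (D : CurvePt k F →₀ ℤ) : ℤ := D.sum fun _ n => n

/-- `f` is a section at `P` of the line bundle `O(D)` -/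
def MemO (n : ℤ) (P : CurvePt k F) (f : F) : Prop := f = 0 ∨ -n ≤ P.ord f

lemma memO_zero (n : ℤ) (P : CurvePt k F) : MemO n P 0 := Or.inl rfl

lemma memO_add {n : ℤ} {P : CurvePt k F} {f g : F} (hf : MemO n P f) (hg : MemO n P g) :
    MemO n P (f + g) := by
  by_cases h : f + g = 0
  · exact Or.inl h
  · exact Or.inr (P.ord_add_ge h hf hg)

lemma memO_smul {n : ℤ} {P : CurvePt k F} {f : F} (c : k) (hf : MemO n P f) :
    MemO n P (c • f) := by
  rcases eq_or_ne c 0 with rfl | hc
  · left; simp
  rcases eq_or_ne f 0 with rfl | hf0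
  · left; simp
  · right
    have h1 : algebraMap k F c ≠ 0 := by simpa using hc
    rw [Algebra.smul_def, P.ord_mul h1 hf0, P.ord_algebraMap]
    rcases hf with h | h
    · exact absurd h hf0
    · simpa using h

lemma memO_mul {m n : ℤ} {P : CurvePt k F} {f g : F} (hf : MemO m P f) (hg : MemO n P g) :
    MemO (m + n) P (f * g) := by
  rcases eq_or_ne f 0 with rfl | hf0
  · left; simp
  rcases eq_or_ne g 0 with rfl | hg0
  · left; simp
  · right
    rw [P.ord_mul hf0 hg0]
    rcases hf with h | h
    · exact absurd h hf0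
    rcases hg with h' | h'
    · exact absurd h' hg0
    omega

lemma memO_mono {m n : ℤ} (hmn : m ≤ n) {P : CurvePt k F} {f : F} (hf : MemO m P f) :
    MemO n P f := by
  rcases hf with h | h
  · exact Or.inl h
  · right; omega

lemma memO_neg {n : ℤ} {P : CurvePt k F} {f : F} (hf : MemO n P f) : MemO n P (-f) := by
  have h1 : P.ord (-1 : F) = 0 := by
    have h := P.ord_mul (neg_ne_zero.mpr (one_ne_zero (α := F))) (neg_ne_zero.mpr (one_ne_zero (α := F)))
    rw [neg_mul_neg, one_mul, P.ord_one] at h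
    omega
  have := memO_mul (m := 0) (f := (-1 : F)) (Or.inr (by rw [h1]; simp)) hf
  simpa using this

lemma memO_sub {n : ℤ} {P : CurvePt k F} {f g : F} (hf : MemO n P f) (hg : MemO n P g) :
    MemO n P (f - g) := by
  rw [sub_eq_add_neg]; exact memO_add hf (memO_neg hg)

lemma memO_zero_iff {P : CurvePt k F} {f : F} : MemO 0 P f ↔ f ∈ P.ring := by
  rcases eq_or_ne f 0 with rfl | hf
  · simp [MemO, P.ring.zero_mem]
  · rw [P.mem_ring_iff hf]; simp [MemO, hf]

lemma memO_add_iff_of_mem {n : ℤ} {P : CurvePt k F} {f g : F} (hg : MemO n P g) :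
    MemO n P (f + g) ↔ MemO n P f := by
  constructor
  · intro h
    have := memO_sub h hg
    simpa using this
  · intro h
    exact memO_add h hg

/-- The Riemann-Roch space `L(D)`: the global sections of `O(D)`. -/
def rrSpace (D : CurvePt k F →₀ ℤ) : Submodule k F where
  carrier := {f | ∀ P : CurvePt k F, MemO (D P) P f}
  zero_mem' := fun P => memO_zero _ P
  add_mem' := fun hf hg P => memO_add (hf P) (hg P)
  smul_mem' := fun c _ hf P => memO_smul c (hf P)

lemma mem_rrSpace {D : CurvePt k F →₀ ℤ} {f : F} :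
    f ∈ rrSpace D ↔ ∀ P : CurvePt k F, MemO (D P) P f := Iff.rfl

/-- `l(D)`, the dimension of `L(D)` -/
noncomputable def ell (D : CurvePt k F →₀ ℤ) : ℕ := finrank k (rrSpace D)

lemma rrSpace_mono {D D' : CurvePt k F →₀ ℤ} (h : ∀ P, D P ≤ D' P) :
    rrSpace D ≤ rrSpace D' := fun _ hf P => memO_mono (h P) (hf P)

lemma deg_eq_finsum (D : CurvePt k F →₀ ℤ) : deg D = ∑ᶠ P, D P := by
  unfold deg Finsupp.sum
  rw [finsum_eq_sum_of_support_subset]
  intro P hP
  simpa using hP

lemma deg_add (D D' : CurvePt k F →₀ ℤ) : deg (D + D') = deg D + deg D' := by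
  unfold deg
  exact Finsupp.sum_add_index' (fun _ => rfl) (fun _ _ _ => rfl)

lemma deg_neg (D : CurvePt k F →₀ ℤ) : deg (-D) = - deg D := by
  have := deg_add D (-D)
  rw [add_neg_cancel] at this
  have h0 : deg (0 : CurvePt k F →₀ ℤ) = 0 := by simp [deg]
  omega

lemma deg_sub (D D' : CurvePt k F →₀ ℤ) : deg (D - D') = deg D - deg D' := by
  rw [sub_eq_add_neg, deg_add, deg_neg]; ring

lemma deg_single (P : CurvePt k F) (n : ℤ) : deg (Finsupp.single P n) = n := by
  unfold deg
  exact Finsupp.sum_single_index rfl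

lemma deg_zero : deg (0 : CurvePt k F →₀ ℤ) = 0 := by simp [deg]

lemma deg_mono {D D' : CurvePt k F →₀ ℤ} (h : ∀ P, D P ≤ D' P) : deg D ≤ deg D' := by
  have h1 : 0 ≤ deg (D' - D) := by
    unfold deg Finsupp.sum
    apply Finset.sum_nonneg
    intro P _
    have := h P
    simp only [Finsupp.coe_sub, Pi.sub_apply]
    omega
  rw [deg_sub] at h1
  omega

lemma eq_of_le_of_deg_le {D D' : CurvePt k F →₀ ℤ} (h : ∀ P, D P ≤ D' P)
    (hd : deg D' ≤ deg D) : D = D' := by
  classical
  by_contra hne
  have hex : ∃ P, D P ≠ D' P := by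
    by_contra hcon
    push Not at hcon
    exact hne (Finsupp.ext hcon)
  obtain ⟨P, hP⟩ := hex
  have h2 : ∀ Q, (D + Finsupp.single P 1 : CurvePt k F →₀ ℤ) Q ≤ D' Q := by
    intro Q
    rw [Finsupp.add_apply, Finsupp.single_apply]
    have h3 := h Q
    have h4 := h P
    split_ifs with hPQ
    · subst hPQ; omega
    · omega
  have h3 := deg_mono h2
  rw [deg_add, deg_single] at h3
  omega

end Pool.Agent.Helper24.Coh
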