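import Mathlib
import Pool.Agent.Helper24.Coh.Basic

/-!
Constants, residues and finite-dimensionality of Riemann-Roch spaces.
-/

open Module Pool.Agent.Helper11 IntermediateField

namespace Pool.Agent.Helper24.Coh

universe u

variable {k F : Type u} [Field k] [Field F] [Algebra k F] [IsAlgClosed k] [CharZero k]

/-- a function without poles is constant -/
lemma mem_range_of_regular (hF : IsCurveField k F) {f : F}
    (h : ∀ P : CurvePt k F, MemO 0 P f) : f ∈ Set.range (algebraMap k F) := by
  by_contra hf
  have hf0 : f ≠ 0 := by
    rintro rfl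
    exact hf ⟨0, map_zero _⟩
  have hfi : f⁻¹ ∉ Set.range (algebraMap k F) := by
    rintro ⟨c, hc⟩
    exact hf ⟨c⁻¹, by rw [map_inv₀, hc, inv_inv]⟩
  obtain ⟨-, h2⟩ := sum_zeros hF hfi
  have : FiniteDimensional k⟮f⁻¹⟯ F := finiteDimensional_adjoin hF (transcendental_of_not_mem hfi)
  have h3 : 0 < finrank k⟮f⁻¹⟯ F := finrank_pos
  have h4 : {P : CurvePt k F | 0 < P.ord f⁻¹} = ∅ := by
    ext P
    simp only [Set.mem_ofPred_eq, Set.mem_empty_iff_false, iff_false, not_lt, P.ord_inv]
    rcases h P with h | h
    · exact absurd h hf0
    · omega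
  rw [h4] at h2
  simp at h2
  omega

/-- the sum of the orders against a divisor -/
lemma sum_ord_support (hF : IsCurveField k F) {f : F} :
    ∃ E : CurvePt k F →₀ ℤ, (∀ P, E P = P.ord f) ∧ deg E = 0 := by
  refine ⟨Finsupp.ofSupportFinite (fun P => P.ord f) (finite_support_ord hF f), fun P => rfl, ?_⟩
  rw [deg_eq_finsum]
  exact sum_ord_eq_zero hF f

/-- for a unit at `P` there is a constant with the same residue -/
lemma exists_residue (hF : IsCurveField k F) (P : CurvePt k F) {f : F} (h0 : f ≠ 0)
    (h : P.ord f = 0) : ∃ c : k, MemO (-1) P (f - algebraMap k F c) := by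
  by_cases hf : f ∈ Set.range (algebraMap k F)
  · obtain ⟨c, rfl⟩ := hf
    exact ⟨c, Or.inl (sub_self _)⟩
  by_contra hcon
  push Not at hcon
  have htr := transcendental_of_not_mem hf
  have hfd := finiteDimensional_adjoin hF htr
  -- nonzero polynomials in f are units
  have hunit : ∀ c : k, P.ord (f - algebraMap k F c) = 0 ∧ f - algebraMap k F c ≠ 0 := by
    intro c
    have h1 := hcon c
    rw [MemO, not_or] at h1
    have h2 : MemO 0 P (f - algebraMap k F c) := by
      apply memO_sub
      · right; omega
      · rcases eq_or_ne (algebraMap k F c) 0 with h | h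
        · exact Or.inl h
        · right; rw [P.ord_algebraMap]; simp
    rcases h2 with h2 | h2
    · exact absurd h2 h1.1
    · have h3 := h1.2
      exact ⟨by omega, h1.1⟩
  have hpoly : ∀ p : Polynomial k, p ≠ 0 → P.ord (Polynomial.aeval f p) = 0 ∧
      Polynomial.aeval f p ≠ 0 := by
    intro p hp
    have hs := IsAlgClosed.splits p
    have h1 := hs.eq_prod_roots
    have hlead : algebraMap k F p.leadingCoeff ≠ 0 := by simpa using hp
    have h2 : Polynomial.aeval f p = algebraMap k F p.leadingCoeff *
        (p.roots.map fun a => f - algebraMap k F a).prod := by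
      conv_lhs => rw [h1]
      rw [map_mul, map_multiset_prod, Multiset.map_map, Polynomial.aeval_C]
      simp
    rw [h2]
    have h3 : ∀ m : Multiset k, P.ord (m.map fun a => f - algebraMap k F a).prod = 0 ∧
        (m.map fun a => f - algebraMap k F a).prod ≠ 0 := by
      intro m
      induction m using Multiset.induction_on with
      | empty => simp
      | cons a m ih =>
        rw [Multiset.map_cons, Multiset.prod_cons]
        refine ⟨?_, mul_ne_zero (hunit a).2 ih.2⟩
        rw [P.ord_mul (hunit a).2 ih.2, (hunit a).1, ih.1, add_zero]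
    refine ⟨?_, mul_ne_zero hlead (h3 _).2⟩
    rw [P.ord_mul hlead (h3 _).2, (h3 _).1, P.ord_algebraMap, add_zero]
  have hsub : ∀ y : k⟮f⟯, (y : F) ∈ P.ring := by
    intro y
    obtain ⟨r, s, hrs⟩ := (IntermediateField.mem_adjoin_simple_iff k (y : F)).mp y.2
    rw [hrs]
    rcases eq_or_ne s 0 with rfl | hs
    · simp [P.ring.zero_mem]
    rcases eq_or_ne r 0 with rfl | hr
    · simp [P.ring.zero_mem]
    have h1 := hpoly r hr
    have h2 := hpoly s hs
    rw [P.mem_ring_iff (div_ne_zero h1.2 h2.2), div_eq_mul_inv,
      P.ord_mul h1.2 (inv_ne_zero h2.2), P.ord_inv, h1.1, h2.1]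
    simp
  have hall : ∀ y : F, y ∈ P.ring := by
    intro y
    have hy : IsIntegral k⟮f⟯ y := Algebra.IsIntegral.isIntegral y
    obtain ⟨p, hp, hpy⟩ := hy
    have hy' : IsIntegral P.ring y := by
      let φ : k⟮f⟯ →+* P.ring := 
        { toFun := fun z => ⟨(z : F), hsub z⟩
          map_one' := rfl
          map_mul' := fun _ _ => rfl
          map_zero' := rfl
          map_add' := fun _ _ => rfl }
      refine ⟨p.map φ, hp.map φ, ?_⟩
      rw [Polynomial.eval₂_map]
      exact hpy
    obtain ⟨z, hz⟩ := IsIntegrallyClosed.isIntegral_iff.mp hy'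
    rw [← hz]
    exact z.2
  obtain ⟨t, ht0, ht⟩ := P.exists_ord_eq_one
  have h1 := hall t⁻¹
  rw [P.mem_ring_iff (inv_ne_zero ht0), P.ord_inv, ht] at h1
  omega

lemma finiteDimensional_step (hF : IsCurveField k F) (D : CurvePt k F →₀ ℤ) (P : CurvePt k F)
    (h : FiniteDimensional k (rrSpace D)) :
    FiniteDimensional k (rrSpace (D + Finsupp.single P 1 : CurvePt k F →₀ ℤ)) := by
  classical
  set D' : CurvePt k F →₀ ℤ := D + Finsupp.single P 1 with hD'
  have hval : ∀ Q, D' Q = D Q + if P = Q then 1 else 0 := by
    intro Q
    rw [hD', Finsupp.add_apply, Finsupp.single_apply]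
  by_cases hle : rrSpace D' ≤ rrSpace D
  · exact Submodule.finiteDimensional_of_le hle
  · obtain ⟨f, hf, hf'⟩ := Set.not_subset.mp hle
    have key : rrSpace D' ≤ rrSpace D ⊔ Submodule.span k {f} := by
      intro y hy
      by_cases hyD : y ∈ rrSpace D
      · exact Submodule.mem_sup_left hyD
      · have hord : ∀ z : F, z ∈ rrSpace D' → z ∉ rrSpace D → z ≠ 0 ∧ P.ord z = -(D P + 1) := by
          intro z hz hz'
          have hz0 : z ≠ 0 := by
            rintro rfl
            exact hz' (Submodule.zero_mem _)
          refine ⟨hz0, ?_⟩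
          rw [mem_rrSpace] at hz hz'
          push Not at hz'
          obtain ⟨Q, hQ⟩ := hz'
          rw [MemO, not_or] at hQ
          have h1 := hz Q
          rw [hval] at h1
          rcases h1 with h1 | h1
          · exact absurd h1 hz0
          · split_ifs at h1 with hPQ
            · subst hPQ
              omega
            · omega
        have hy1 := hord y hy hyD
        have hf1 := hord f hf hf'
        have hyf : P.ord (y / f) = 0 := by
          rw [div_eq_mul_inv, P.ord_mul hy1.1 (inv_ne_zero hf1.1), P.ord_inv, hy1.2, hf1.2]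
          ring
        obtain ⟨c, hc⟩ := exists_residue hF P (div_ne_zero hy1.1 hf1.1) hyf
        have hrem : y - c • f ∈ rrSpace D := by
          rw [mem_rrSpace]
          intro Q
          by_cases hPQ : P = Q
          · subst hPQ
            have h2 : y - c • f = (y / f - algebraMap k F c) * f := by
              rw [sub_mul, div_mul_cancel₀ _ hf1.1, Algebra.smul_def]
            rw [h2]
            have h3 := memO_mul (m := -1) (n := D P + 1) (P := P) hc
              (Or.inr (by rw [hf1.2]) : MemO (D P + 1) P f)
            exact memO_mono (by omega) h3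
          · have h2 : MemO (D' Q) Q (y - c • f) := memO_sub (hy Q) (memO_smul c (hf Q))
            rw [hval, if_neg hPQ, add_zero] at h2
            exact h2
        have h3 : y = (y - c • f) + c • f := by ring
        rw [h3]
        exact Submodule.add_mem_sup hrem
          (Submodule.smul_mem _ _ (Submodule.mem_span_singleton_self f))
    have : FiniteDimensional k (Submodule.span k {f}) := inferInstance
    exact Submodule.finiteDimensional_of_le key

lemma finiteDimensional_nonneg (hF : IsCurveField k F) (D : CurvePt k F →₀ ℤ)
    (hD : ∀ P, 0 ≤ D P) : FiniteDimensional k (rrSpace D) := by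
  classical
  obtain ⟨n, hn⟩ : ∃ n : ℕ, deg D = n := by
    refine ⟨(deg D).toNat, ?_⟩
    have := deg_mono (D := 0) (D' := D) (fun P => by simpa using hD P)
    rw [deg_zero] at this
    omega
  induction n generalizing D with
  | zero =>
    have h0 : D = 0 := by
      symm
      apply eq_of_le_of_deg_le (D := 0) (D' := D) (fun P => by simpa using hD P)
      rw [deg_zero, hn]; simp
    subst h0
    have hle : rrSpace (0 : CurvePt k F →₀ ℤ) ≤ Submodule.span k {(1 : F)} := by
      intro f hf
      obtain ⟨c, hc⟩ := mem_range_of_regular hF (fun P => by simpa using hf P)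
      rw [Submodule.mem_span_singleton]
      exact ⟨c, by rw [← hc, Algebra.smul_def, mul_one]⟩
    exact Submodule.finiteDimensional_of_le hle
  | succ n ih =>
    have hex : ∃ P, 0 < D P := by
      by_contra hcon
      push Not at hcon
      have h1 : D = 0 := by
        ext P
        have := hD P
        have := hcon P
        simp only [Finsupp.coe_zero, Pi.zero_apply]
        omega
      rw [h1, deg_zero] at hn
      push_cast at hn
      omega
    obtain ⟨P, hP⟩ := hex
    have h1 : D = (D - Finsupp.single P 1) + Finsupp.single P 1 := by simp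
    rw [h1]
    apply finiteDimensional_step hF
    apply ih
    · intro Q
      rw [Finsupp.sub_apply, Finsupp.single_apply]
      split_ifs with hPQ
      · subst hPQ; omega
      · have := hD Q; omega
    · rw [deg_sub, deg_single, hn]; push_cast; ring

theorem finiteDimensional_rrSpace (hF : IsCurveField k F) (D : CurvePt k F →₀ ℤ) :
    FiniteDimensional k (rrSpace D) := by
  classical
  let D' : CurvePt k F →₀ ℤ := D.mapRange (fun n => max n 0) (by simp)
  have h1 : ∀ P, D' P = max (D P) 0 := fun P => rfl
  have h2 := finiteDimensional_nonneg hF D' (fun P => by rw [h1]; exact le_max_right _ _)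
  exact Submodule.finiteDimensional_of_le
    (rrSpace_mono (D := D) (D' := D') (fun P => by rw [h1]; exact le_max_left _ _))

lemma ell_mono (hF : IsCurveField k F) {D D' : CurvePt k F →₀ ℤ} (h : ∀ P, D P ≤ D' P) :
    ell D ≤ ell D' := by
  have := finiteDimensional_rrSpace hF D'
  exact Submodule.finrank_mono (rrSpace_mono h)

end Pool.Agent.Helper24.Coh
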