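import Mathlib
import Pool.Agent.Helper24.Coh.Finite

/-!
Riemann's inequality.
-/

open Module Pool.Agent.Helper11 IntermediateField

namespace Pool.Agent.Helper24.Coh

universe u

variable {k F : Type u} [Field k] [Field F] [Algebra k F]

lemma exists_ord_eq' (P : CurvePt k F) (n : ℤ) : ∃ f : F, f ≠ 0 ∧ P.ord f = n := by
  obtain ⟨t, ht0, ht⟩ := P.exists_ord_eq_one
  rcases Int.eq_nat_or_neg n with ⟨m, rfl | rfl⟩
  · exact ⟨t ^ m, pow_ne_zero m ht0, by rw [P.ord_pow ht0, ht, mul_one]⟩
  · exact ⟨(t ^ m)⁻¹, inv_ne_zero (pow_ne_zero m ht0), by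
      rw [P.ord_inv, P.ord_pow ht0, ht, mul_one]⟩

lemma exists_transcendental (hF : IsCurveField k F) : ∃ x : F, x ∉ Set.range (algebraMap k F) := by
  by_contra hcon
  push Not at hcon
  have : Algebra.IsAlgebraic k F := ⟨fun x => by
    obtain ⟨c, rfl⟩ := hcon x
    exact isAlgebraic_algebraMap c⟩
  have h1 := hF.trdeg_eq_one
  rw [trdeg_eq_zero_iff.mpr this] at h1
  exact zero_ne_one h1

variable [IsAlgClosed k] [CharZero k]

/-- comparison of two functions with the same pole order -/
lemma exists_sub_smul (hF : IsCurveField k F) (P : CurvePt k F) {y f : F} {n : ℤ}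
    (hy : MemO n P y) (hf0 : f ≠ 0) (hf : P.ord f = -n) :
    ∃ c : k, MemO (n - 1) P (y - c • f) := by
  by_cases hy' : MemO (n - 1) P y
  · exact ⟨0, by simpa using hy'⟩
  · rw [MemO, not_or] at hy'
    have h1 : P.ord y = -n := by
      rcases hy with h | h
      · exact absurd h hy'.1
      · have := hy'.2
        omega
    have hyf : P.ord (y / f) = 0 := by
      rw [div_eq_mul_inv, P.ord_mul hy'.1 (inv_ne_zero hf0), P.ord_inv, h1, hf]
      ring
    obtain ⟨c, hc⟩ := exists_residue hF P (div_ne_zero hy'.1 hf0) hyf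
    refine ⟨c, ?_⟩
    have h2 : y - c • f = (y / f - algebraMap k F c) * f := by
      rw [sub_mul, div_mul_cancel₀ _ hf0, Algebra.smul_def]
    rw [h2]
    have h3 := memO_mul (m := -1) (n := n) (P := P) hc (Or.inr (by rw [hf]) : MemO n P f)
    exact memO_mono (by omega) h3

lemma rrSpace_add_point (hF : IsCurveField k F) (D : CurvePt k F →₀ ℤ) (P : CurvePt k F) :
    rrSpace (D + Finsupp.single P 1 : CurvePt k F →₀ ℤ) ≤ rrSpace D ∨
    ∃ f ∈ rrSpace (D + Finsupp.single P 1 : CurvePt k F →₀ ℤ), f ∉ rrSpace D ∧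
      rrSpace (D + Finsupp.single P 1 : CurvePt k F →₀ ℤ) ≤ rrSpace D ⊔ Submodule.span k {f} := by
  classical
  set D' : CurvePt k F →₀ ℤ := D + Finsupp.single P 1 with hD'
  have hval : ∀ Q, D' Q = D Q + if P = Q then 1 else 0 := by
    intro Q
    rw [hD', Finsupp.add_apply, Finsupp.single_apply]
  by_cases hle : rrSpace D' ≤ rrSpace D
  · exact Or.inl hle
  · right
    obtain ⟨f, hf, hf'⟩ := Set.not_subset.mp hle
    refine ⟨f, hf, hf', ?_⟩
    have hf0 : f ≠ 0 := by
      rintro rfl
      exact hf' (Submodule.zero_mem _)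
    have hford : P.ord f = -(D P + 1) := by
      have hf2 := hf'
      change ¬ f ∈ rrSpace D at hf2
      rw [mem_rrSpace] at hf2
      push Not at hf2
      obtain ⟨Q, hQ⟩ := hf2
      rw [MemO, not_or] at hQ
      have h1 := hf Q
      rw [hval] at h1
      rcases h1 with h1 | h1
      · exact absurd h1 hf0
      · split_ifs at h1 with hPQ
        · subst hPQ
          omega
        · omega
    intro y hy
    have h1 : MemO (D P + 1) P y := by
      have := hy P
      rwa [hval, if_pos rfl] at this
    obtain ⟨c, hc⟩ := exists_sub_smul hF P h1 hf0 (by rw [hford])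
    have hrem : y - c • f ∈ rrSpace D := by
      intro Q
      by_cases hPQ : P = Q
      · subst hPQ
        exact memO_mono (by omega) hc
      · have h2 : MemO (D' Q) Q (y - c • f) := memO_sub (hy Q) (memO_smul c (hf Q))
        rw [hval, if_neg hPQ, add_zero] at h2
        exact h2
    have h3 : y = (y - c • f) + c • f := by ring
    rw [h3]
    exact Submodule.add_mem_sup hrem
      (Submodule.smul_mem _ _ (Submodule.mem_span_singleton_self f))

omit [IsAlgClosed k] [CharZero k] in
lemma le_add_point (D : CurvePt k F →₀ ℤ) (P Q : CurvePt k F) :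
    D Q ≤ (D + Finsupp.single P 1 : CurvePt k F →₀ ℤ) Q := by
  classical
  rw [Finsupp.add_apply, Finsupp.single_apply]
  split_ifs <;> omega

lemma ell_add_point_le (hF : IsCurveField k F) (D : CurvePt k F →₀ ℤ) (P : CurvePt k F) :
    ell (D + Finsupp.single P 1 : CurvePt k F →₀ ℤ) ≤ ell D + 1 := by
  have hfd := finiteDimensional_rrSpace hF D
  rcases rrSpace_add_point hF D P with h | ⟨f, -, -, h⟩
  · have := Submodule.finrank_mono h
    unfold ell
    omega
  · have h1 := Submodule.finrank_mono h
    have h2 := Submodule.finrank_add_le_finrank_add_finrank (rrSpace D) (Submodule.span k {f})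
    have h3 : finrank k (Submodule.span k {f}) ≤ 1 := by
      have := finrank_span_le_card (R := k) ({f} : Set F)
      simpa using this
    unfold ell
    omega

omit [IsAlgClosed k] [CharZero k] in
/-- induction on effective differences -/
lemma induction_le {motive : (CurvePt k F →₀ ℤ) → Prop} (D : CurvePt k F →₀ ℤ) (h0 : motive D)
    (hs : ∀ (D' : CurvePt k F →₀ ℤ) (P : CurvePt k F), (∀ Q, D Q ≤ D' Q) → motive D' →
      motive (D' + Finsupp.single P 1)) (D' : CurvePt k F →₀ ℤ) (h : ∀ Q, D Q ≤ D' Q) :
    motive D' := by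
  classical
  obtain ⟨n, hn⟩ : ∃ n : ℕ, deg D' - deg D = n := by
    refine ⟨(deg D' - deg D).toNat, ?_⟩
    have := deg_mono h
    omega
  induction n generalizing D' with
  | zero =>
    have h1 : D = D' := eq_of_le_of_deg_le h (by push_cast at hn; omega)
    rw [← h1]
    exact h0
  | succ n ih =>
    have hex : ∃ P, D P < D' P := by
      by_contra hcon
      push Not at hcon
      have h1 : D = D' := Finsupp.ext fun P => le_antisymm (h P) (hcon P)
      rw [h1] at hn
      push_cast at hn
      omega
    obtain ⟨P, hP⟩ := hex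
    have h1 : D' = (D' - Finsupp.single P 1) + Finsupp.single P 1 := by simp
    have h2 : ∀ Q, D Q ≤ (D' - Finsupp.single P 1 : CurvePt k F →₀ ℤ) Q := by
      intro Q
      rw [Finsupp.sub_apply, Finsupp.single_apply]
      have := h Q
      split_ifs with hPQ
      · subst hPQ; omega
      · omega
    rw [h1]
    apply hs _ P h2
    apply ih _ h2
    rw [deg_sub, deg_single]
    push_cast at hn
    omega

lemma ell_le_of_le (hF : IsCurveField k F) {D D' : CurvePt k F →₀ ℤ} (h : ∀ Q, D Q ≤ D' Q) :
    (ell D' : ℤ) ≤ ell D + (deg D' - deg D) := by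
  refine induction_le (motive := fun D' => (ell D' : ℤ) ≤ ell D + (deg D' - deg D)) D
    (by simp) ?_ D' h
  intro D' P _ ih
  have := ell_add_point_le hF D' P
  rw [deg_add, deg_single]
  omega

omit [IsAlgClosed k] [CharZero k] in
/-- linearly equivalent divisors have the same `l` -/
lemma ell_equiv {D D' : CurvePt k F →₀ ℤ} {z : F} (hz : z ≠ 0)
    (h : ∀ P : CurvePt k F, D' P = D P - P.ord z) : ell D' = ell D := by
  symm
  apply LinearEquiv.finrank_eq
  have h1 : ∀ f ∈ rrSpace D, z * f ∈ rrSpace D' := by
    intro f hf P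
    have := memO_mul (m := -P.ord z) (Or.inr (by omega) : MemO (-P.ord z) P z) (hf P)
    exact memO_mono (by rw [h]; omega) this
  have h2 : ∀ f ∈ rrSpace D', z⁻¹ * f ∈ rrSpace D := by
    intro f hf P
    have := memO_mul (m := P.ord z) (Or.inr (by rw [P.ord_inv]) : MemO (P.ord z) P z⁻¹) (hf P)
    exact memO_mono (by rw [h]; omega) this
  exact
    { toFun := fun f => ⟨z * f.1, h1 _ f.2⟩
      map_add' := fun f g => Subtype.ext (by simp [mul_add])
      map_smul' := fun c f => Subtype.ext (by simp)
      invFun := fun f => ⟨z⁻¹ * f.1, h2 _ f.2⟩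
      left_inv := fun f => Subtype.ext (by simp [hz])
      right_inv := fun f => Subtype.ext (by simp [hz]) }

/-- the divisor of a nonzero function -/
lemma exists_shift (hF : IsCurveField k F) (D : CurvePt k F →₀ ℤ) (z : F) :
    ∃ D' : CurvePt k F →₀ ℤ, (∀ P : CurvePt k F, D' P = D P - P.ord z) ∧ deg D' = deg D := by
  obtain ⟨E, hE, hE0⟩ := sum_ord_support hF (f := z)
  refine ⟨D - E, fun P => by rw [Finsupp.sub_apply, hE], ?_⟩
  rw [deg_sub, hE0, sub_zero]

/-- the divisor of poles -/
lemma exists_poleDiv (hF : IsCurveField k F) (f : F) :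
    ∃ B : CurvePt k F →₀ ℤ, (∀ P : CurvePt k F, B P = max (-P.ord f) 0) := by
  have hfin : {P : CurvePt k F | max (-P.ord f) 0 ≠ 0}.Finite := by
    refine (finite_support_ord hF f).subset ?_
    intro P hP h0
    apply hP
    rw [h0]
    simp
  exact ⟨Finsupp.ofSupportFinite (fun P => max (-P.ord f) 0) hfin, fun P => rfl⟩

lemma deg_poleDiv (hF : IsCurveField k F) {x : F} (hx : x ∉ Set.range (algebraMap k F))
    {B : CurvePt k F →₀ ℤ} (hB : ∀ P : CurvePt k F, B P = max (-P.ord x) 0) :
    deg B = finrank k⟮x⟯ F := by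
  have hxi : x⁻¹ ∉ Set.range (algebraMap k F) := by
    rintro ⟨c, hc⟩
    exact hx ⟨c⁻¹, by rw [map_inv₀, hc, inv_inv]⟩
  obtain ⟨-, h2⟩ := sum_zeros hF hxi
  rw [adjoin_inv_eq] at h2
  rw [← h2, deg_eq_finsum]
  apply finsum_congr
  intro P
  rw [hB, P.ord_inv]
  by_cases h : 0 < -P.ord x
  · rw [finsum_eq_if]
    simp only [Set.mem_ofPred_eq, P.ord_inv]
    rw [if_pos h]
    omega
  · rw [finsum_eq_if]
    simp only [Set.mem_ofPred_eq, P.ord_inv]
    rw [if_neg h]
    omega

/-- the lower bound for `l(rB + C)` -/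
lemma exists_riemann_aux (hF : IsCurveField k F) :
    ∃ (B C : CurvePt k F →₀ ℤ), (∀ P, 0 ≤ B P) ∧ (∀ P, 0 ≤ C P) ∧ 0 < deg B ∧
      ∀ r : ℕ, deg B * (r + 1) ≤ ell ((r : ℤ) • B + C) := by
  classical
  obtain ⟨x, hx⟩ := exists_transcendental hF
  have htr := transcendental_of_not_mem hx
  have hfd : FiniteDimensional k⟮x⟯ F := finiteDimensional_adjoin hF htr
  obtain ⟨B, hB⟩ := exists_poleDiv hF x
  have hdeg := deg_poleDiv hF hx hB
  let u : Basis (Fin (finrank k⟮x⟯ F)) k⟮x⟯ F := finBasis k⟮x⟯ F
  choose G hG using fun i => exists_poleDiv hF (u i)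
  let C : CurvePt k F →₀ ℤ := ∑ i, G i
  have hC : ∀ P i, G i P ≤ C P := by
    intro P i
    change G i P ≤ (∑ i, G i) P
    rw [Finsupp.finsetSum_apply]
    apply Finset.single_le_sum (f := fun i => G i P) _ (Finset.mem_univ i)
    intro j _
    change 0 ≤ G j P
    rw [hG]
    exact le_max_right _ _
  have hC0 : ∀ P, 0 ≤ C P := by
    intro P
    change 0 ≤ (∑ i, G i) P
    rw [Finsupp.finsetSum_apply]
    apply Finset.sum_nonneg
    intro j _
    rw [hG]
    exact le_max_right _ _
  have hB0 : ∀ P, 0 ≤ B P := fun P => by rw [hB]; exact le_max_right _ _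
  refine ⟨B, C, hB0, hC0, ?_, ?_⟩
  · rw [hdeg]
    exact_mod_cast finrank_pos
  · intro r
    rw [hdeg]
    have hx0 : x ≠ 0 := by
      rintro rfl
      exact hx ⟨0, map_zero _⟩
    have hxB : ∀ P, MemO (B P) P x := by
      intro P
      right
      rw [hB]
      omega
    have hxpow : ∀ (j : ℕ), j ≤ r → ∀ P, MemO (r * B P) P (x ^ j) := by
      intro j hj P
      have h1 : MemO (j * B P) P (x ^ j) := by
        right
        rw [P.ord_pow hx0]
        rcases hxB P with h | h
        · exact absurd h hx0
        · nlinarith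
      refine memO_mono ?_ h1
      have := hB0 P
      have hj' : (j : ℤ) ≤ r := by exact_mod_cast hj
      nlinarith
    have huC : ∀ P i, MemO (C P) P (u i) := by
      intro P i
      refine memO_mono (hC P i) (Or.inr ?_)
      rw [hG]
      omega
    have hmem : ∀ c : Fin (finrank k⟮x⟯ F) → Fin (r + 1) → k,
        (∑ i, (∑ j : Fin (r + 1), c i j • x ^ (j : ℕ)) * u i) ∈
          rrSpace ((r : ℤ) • B + C : CurvePt k F →₀ ℤ) := by
      intro c
      apply Submodule.sum_mem
      intro i _
      rw [Finset.sum_mul]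
      apply Submodule.sum_mem
      intro j _ P
      have h1 := memO_mul (memO_smul (c i j) (hxpow j (by omega) P)) (huC P i)
      rw [Finsupp.add_apply, Finsupp.smul_apply, smul_eq_mul]
      exact h1
    let φ : (Fin (finrank k⟮x⟯ F) → Fin (r + 1) → k) →ₗ[k]
        rrSpace ((r : ℤ) • B + C : CurvePt k F →₀ ℤ) :=
      { toFun := fun c => ⟨_, hmem c⟩
        map_add' := by
          intro c d
          apply Subtype.ext
          simp only [Pi.add_apply, add_smul, Finset.sum_add_distrib, add_mul,
            Submodule.coe_add]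
        map_smul' := by
          intro a c
          apply Subtype.ext
          simp only [Pi.smul_apply, smul_eq_mul, RingHom.id_apply, Submodule.coe_smul,
            Finset.smul_sum, mul_smul]
          apply Finset.sum_congr rfl
          intro i _
          rw [← Finset.smul_sum, smul_mul_assoc] }
    have hinj : Function.Injective φ := by
      refine (injective_iff_map_eq_zero φ).mpr ?_
      intro c hc
      have h1 : ∑ i, (∑ j : Fin (r + 1), c i j • x ^ (j : ℕ)) * u i = 0 :=
        congrArg Subtype.val hc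
      let g : k⟮x⟯ := AdjoinSimple.gen k x
      have h2 : ∑ i, (∑ j : Fin (r + 1), c i j • g ^ (j : ℕ)) • u i = 0 := by
        rw [← h1]
        apply Finset.sum_congr rfl
        intro i _
        rw [Algebra.smul_def]
        congr 1
        rw [map_sum]
        apply Finset.sum_congr rfl
        intro j _
        rw [Algebra.smul_def, Algebra.smul_def, map_mul, map_pow,
          ← IsScalarTower.algebraMap_apply]
        rfl
      have h3 := Fintype.linearIndependent_iff.mp u.linearIndependent _ h2
      ext i j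
      have h4 := h3 i
      have h5 : ∑ j : Fin (r + 1), c i j • x ^ (j : ℕ) = 0 := by
        have := congrArg (algebraMap k⟮x⟯ F) h4
        rw [map_sum, map_zero] at this
        rw [← this]
        apply Finset.sum_congr rfl
        intro j _
        rw [Algebra.smul_def, Algebra.smul_def, map_mul, map_pow,
          ← IsScalarTower.algebraMap_apply]
        rfl
      let p : Polynomial k := ∑ j : Fin (r + 1), Polynomial.C (c i j) * Polynomial.X ^ (j : ℕ)
      have h6 : Polynomial.aeval x p = 0 := by
        rw [← h5]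
        change Polynomial.aeval x (∑ j : Fin (r + 1), _) = _
        rw [map_sum]
        apply Finset.sum_congr rfl
        intro j _
        rw [map_mul, Polynomial.aeval_C, map_pow, Polynomial.aeval_X, Algebra.smul_def]
      have h7 : p = 0 := by
        by_contra hp
        exact htr ⟨p, hp, h6⟩
      have h8 := congrArg (fun q => Polynomial.coeff q (j : ℕ)) h7
      simp only [p, Polynomial.finsetSum_coeff, Polynomial.coeff_C_mul, Polynomial.coeff_X_pow,
        Polynomial.coeff_zero] at h8
      rw [Finset.sum_eq_single j] at h8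
      · simpa using h8
      · intro b _ hb
        have : (j : ℕ) ≠ (b : ℕ) := fun h => hb (Fin.ext h.symm)
        rw [if_neg this, mul_zero]
      · intro h
        exact absurd (Finset.mem_univ j) h
    have hfin := finiteDimensional_rrSpace hF ((r : ℤ) • B + C : CurvePt k F →₀ ℤ)
    have h9 := LinearMap.finrank_le_finrank_of_injective hinj
    rw [Module.finrank_pi_fintype] at h9
    simp only [Module.finrank_fintype_fun_eq_card, Fintype.card_fin, Finset.sum_const,
      Finset.card_univ, smul_eq_mul] at h9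
    unfold ell
    exact_mod_cast h9

omit [IsAlgClosed k] [CharZero k] in
lemma deg_smul (n : ℤ) (D : CurvePt k F →₀ ℤ) : deg (n • D) = n * deg D := by
  unfold deg
  rw [Finsupp.sum_smul_index' (by intro; rfl), Finsupp.mul_sum]
  rfl

/-- Riemann's inequality: `deg D - l(D)` is bounded above -/
theorem riemann_inequality (hF : IsCurveField k F) :
    ∃ γ : ℤ, ∀ D : CurvePt k F →₀ ℤ, deg D - ell D ≤ γ := by
  classical
  obtain ⟨B, C, hB, hC, hdB, hbound⟩ := exists_riemann_aux hF
  have h1 : ∀ r : ℕ, deg ((r : ℤ) • B) - ell ((r : ℤ) • B) ≤ deg C := by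
    intro r
    have h2 := hbound r
    have h3 := ell_le_of_le hF (D := (r : ℤ) • B) (D' := (r : ℤ) • B + C) (by
      intro Q
      rw [Finsupp.add_apply]
      have := hC Q
      omega)
    rw [deg_add] at h3
    rw [deg_smul]
    nlinarith
  refine ⟨deg C, fun D => ?_⟩
  -- reduce to an effective divisor
  let D' : CurvePt k F →₀ ℤ := D.mapRange (fun n => max n 0) (by simp)
  have h2 : ∀ P, D' P = max (D P) 0 := fun P => rfl
  have h3 : ∀ P, D P ≤ D' P := fun P => by rw [h2]; exact le_max_left _ _
  have h4 := ell_le_of_le hF h3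
  have h5 : deg D' - ell D' ≤ deg C := by
    obtain ⟨r, hr⟩ : ∃ r : ℕ, deg C + deg D' + 1 ≤ r * deg B := by
      refine ⟨(deg C + deg D' + 1).toNat, ?_⟩
      have : deg C + deg D' + 1 ≤ ((deg C + deg D' + 1).toNat : ℤ) := Int.self_le_toNat _
      nlinarith [Int.natCast_nonneg (deg C + deg D' + 1).toNat]
    have h6 := h1 r
    rw [deg_smul] at h6
    have h7 := ell_le_of_le hF (D := (r : ℤ) • B - D') (D' := (r : ℤ) • B) (by
      intro Q
      rw [Finsupp.sub_apply, h2]
      have := le_max_right (D Q) 0
      omega)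
    rw [deg_sub, deg_smul] at h7
    have h8 : 0 < ell ((r : ℤ) • B - D') := by omega
    obtain ⟨z, hz, hz0⟩ : ∃ z ∈ rrSpace ((r : ℤ) • B - D'), z ≠ 0 := by
      have hne : rrSpace ((r : ℤ) • B - D' : CurvePt k F →₀ ℤ) ≠ ⊥ := by
        intro h
        unfold ell at h8
        rw [h] at h8
        simp at h8
      exact Submodule.exists_mem_ne_zero_of_ne_bot hne
    obtain ⟨D'', hD'', hdeg''⟩ := exists_shift hF D' z
    have h9 := ell_equiv hz0 hD''
    have h10 : ∀ Q, D'' Q ≤ ((r : ℤ) • B) Q := by
      intro Q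
      rw [hD'']
      rcases hz Q with h | h
      · exact absurd h hz0
      · rw [Finsupp.sub_apply] at h
        omega
    have h11 := ell_le_of_le hF h10
    rw [deg_smul] at h11
    omega
  omega

end Pool.Agent.Helper24.Coh
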