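import Mathlib
import Pool.Agent.Helper24.Coh.Riemann

/-!
Adeles and the spaces of Weil differentials.
-/

open Module Pool.Agent.Helper11 IntermediateField

namespace Pool.Agent.Helper24.Coh

universe u

variable {k F : Type u} [Field k] [Field F] [Algebra k F]

/-- adeles -/
def adele (k F : Type u) [Field k] [Field F] [Algebra k F] : Submodule k (CurvePt k F → F) where
  carrier := {α | {P | ¬ MemO 0 P (α P)}.Finite}
  zero_mem' := by
    have : {P : CurvePt k F | ¬ MemO 0 P ((0 : CurvePt k F → F) P)} = ∅ := by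
      ext P
      simp [MemO]
    rw [Set.mem_ofPred_eq, this]
    exact Set.finite_empty
  add_mem' := by
    intro α β hα hβ
    refine (Set.Finite.union hα hβ).subset ?_
    intro P hP
    by_contra hcon
    simp only [Set.mem_union, Set.mem_ofPred_eq, not_or, not_not] at hcon
    exact hP (memO_add hcon.1 hcon.2)
  smul_mem' := by
    intro c α hα
    refine Set.Finite.subset hα ?_
    intro P hP hP'
    exact hP (memO_smul c hP')

/-- the adeles bounded by a divisor -/
def adeleD (D : CurvePt k F →₀ ℤ) : Set (adele k F) := {α | ∀ P, MemO (D P) P (α.1 P)}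

variable [IsAlgClosed k] [CharZero k]

/-- principal adeles -/
noncomputable def diag (hF : IsCurveField k F) : F →ₗ[k] adele k F where
  toFun f := ⟨fun _ => f, by
    refine (finite_support_ord hF f).subset ?_
    intro P hP h0
    apply hP
    right
    rw [h0]
    simp⟩
  map_add' _ _ := rfl
  map_smul' _ _ := rfl

/-- multiplication of adeles by functions -/
noncomputable def mulF (hF : IsCurveField k F) (f : F) : adele k F →ₗ[k] adele k F where
  toFun α := ⟨fun P => f * α.1 P, by
    refine ((finite_support_ord hF f).union α.2).subset ?_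
    intro P hP
    by_contra hcon
    simp only [Set.mem_union, Set.mem_ofPred_eq, not_or, not_not] at hcon
    apply hP
    have h1 : MemO 0 P f := Or.inr (by rw [hcon.1]; simp)
    have := memO_mul h1 hcon.2
    simpa using this⟩
  map_add' α β := Subtype.ext (funext fun P => mul_add _ _ _)
  map_smul' c α := Subtype.ext (funext fun P => mul_smul_comm _ _ _)

/-- Weil differentials vanishing on the adeles bounded by `D` -/
noncomputable def omegaD (hF : IsCurveField k F) (D : CurvePt k F →₀ ℤ) :
    Submodule k (adele k F →ₗ[k] k) where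
  carrier := {w | (∀ α ∈ adeleD D, w α = 0) ∧ ∀ f, w (diag hF f) = 0}
  zero_mem' := ⟨fun _ _ => rfl, fun _ => rfl⟩
  add_mem' := by
    rintro w w' ⟨h1, h2⟩ ⟨h1', h2'⟩
    exact ⟨fun α hα => by rw [LinearMap.add_apply, h1 α hα, h1' α hα, add_zero],
      fun f => by rw [LinearMap.add_apply, h2, h2', add_zero]⟩
  smul_mem' := by
    rintro c w ⟨h1, h2⟩
    exact ⟨fun α hα => by rw [LinearMap.smul_apply, h1 α hα, smul_zero],
      fun f => by rw [LinearMap.smul_apply, h2, smul_zero]⟩

variable (hF : IsCurveField k F)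

omit [IsAlgClosed k] [CharZero k] in
lemma adeleD_mono {D D' : CurvePt k F →₀ ℤ} (h : ∀ P, D P ≤ D' P) {α : adele k F}
    (hα : α ∈ adeleD D) : α ∈ adeleD D' := fun P => memO_mono (h P) (hα P)

lemma omegaD_anti {D D' : CurvePt k F →₀ ℤ} (h : ∀ P, D P ≤ D' P) :
    omegaD hF D' ≤ omegaD hF D := fun _ hw => ⟨fun α hα => hw.1 α (adeleD_mono h hα), hw.2⟩

omit [IsAlgClosed k] [CharZero k] in
/-- every adele is bounded by a divisor above a given one -/
lemma exists_bound (D : CurvePt k F →₀ ℤ) (α : adele k F) :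
    ∃ D' : CurvePt k F →₀ ℤ, (∀ P, D P ≤ D' P) ∧ α ∈ adeleD D' := by
  classical
  let f : CurvePt k F → ℤ := fun P => max (D P) (if MemO (D P) P (α.1 P) then D P else -P.ord (α.1 P))
  have hfin : {P | f P ≠ 0}.Finite := by
    refine ((D.support.finite_toSet).union α.2).subset ?_
    intro P hP
    by_contra hcon
    simp only [Set.mem_union, Finset.mem_coe, Finsupp.mem_support_iff, Set.mem_ofPred_eq, not_or,
      not_not] at hcon
    apply hP
    change max (D P) _ = 0
    rw [hcon.1, if_pos hcon.2]
    simp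
  refine ⟨Finsupp.ofSupportFinite f hfin, fun P => le_max_left _ _, ?_⟩
  intro P
  change MemO (f P) P (α.1 P)
  by_cases h : MemO (D P) P (α.1 P)
  · exact memO_mono (le_max_left _ _) h
  · right
    change -(max (D P) _) ≤ _
    rw [if_neg h]
    have := le_max_right (D P) (-P.ord (α.1 P))
    omega

/-- a generator of the adeles bounded by `D + P` over those bounded by `D` -/
lemma exists_generator (hF : IsCurveField k F) (D : CurvePt k F →₀ ℤ) (P : CurvePt k F) :
    ∃ a : adele k F, a ∈ adeleD (D + Finsupp.single P 1) ∧ (∀ Q, Q ≠ P → a.1 Q = 0) ∧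
      ¬ MemO (D P) P (a.1 P) ∧
      ∀ α ∈ adeleD (D + Finsupp.single P 1), ∃ c : k, α - c • a ∈ adeleD D := by
  classical
  obtain ⟨t, ht0, ht⟩ := exists_ord_eq' P (-(D P + 1))
  have hval : ∀ Q, (D + Finsupp.single P 1 : CurvePt k F →₀ ℤ) Q = D Q + if P = Q then 1 else 0 := by
    intro Q
    rw [Finsupp.add_apply, Finsupp.single_apply]
  let a : adele k F := ⟨fun Q => if Q = P then t else 0, by
    refine (Set.finite_singleton P).subset ?_
    intro Q hQ
    by_contra hcon
    apply hQ
    left
    exact if_neg hcon⟩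
  have haP : a.1 P = t := if_pos rfl
  have haQ : ∀ Q, Q ≠ P → a.1 Q = 0 := fun Q hQ => if_neg hQ
  refine ⟨a, ?_, haQ, ?_, ?_⟩
  · intro Q
    by_cases hPQ : P = Q
    · subst hPQ
      rw [haP, hval, if_pos rfl]
      right
      omega
    · left
      exact haQ Q (Ne.symm hPQ)
  · rw [haP, MemO, not_or]
    exact ⟨ht0, by omega⟩
  · intro α hα
    have h1 : MemO (D P + 1) P (α.1 P) := by
      have := hα P
      rwa [hval, if_pos rfl] at this
    obtain ⟨c, hc⟩ := exists_sub_smul hF P h1 ht0 ht
    refine ⟨c, ?_⟩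
    intro Q
    change MemO (D Q) Q (α.1 Q - c • a.1 Q)
    by_cases hPQ : P = Q
    · subst hPQ
      rw [haP]
      exact memO_mono (by omega) hc
    · rw [haQ Q (Ne.symm hPQ), smul_zero, sub_zero]
      have := hα Q
      rwa [hval, if_neg hPQ, add_zero] at this

omit [IsAlgClosed k] [CharZero k] in
lemma sub_smul_mem {D : CurvePt k F →₀ ℤ} {α β : adele k F} (c : k) (hα : α ∈ adeleD D)
    (hβ : β ∈ adeleD D) : α - c • β ∈ adeleD D :=
  fun P => memO_sub (hα P) (memO_smul c (hβ P))

/-- one step, first case -/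
lemma omegaD_step_eq {D : CurvePt k F →₀ ℤ} {P : CurvePt k F} {f : F}
    (hf : f ∈ rrSpace (D + Finsupp.single P 1 : CurvePt k F →₀ ℤ)) (hf' : f ∉ rrSpace D) :
    omegaD hF D = omegaD hF (D + Finsupp.single P 1) := by
  apply le_antisymm _ (omegaD_anti hF (le_add_point D P))
  intro w hw
  obtain ⟨a, ha, -, -, hgen⟩ := exists_generator hF D P
  obtain ⟨c, hc⟩ := hgen (diag hF f) (fun Q => hf Q)
  have hc0 : c ≠ 0 := by
    rintro rfl
    rw [zero_smul, sub_zero] at hc
    exact hf' (fun Q => hc Q)
  have h1 := hw.1 _ hc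
  rw [map_sub, hw.2, map_smul, zero_sub, neg_eq_zero, smul_eq_mul] at h1
  have h2 : w a = 0 := (mul_eq_zero.mp h1).resolve_left hc0
  refine ⟨?_, hw.2⟩
  intro α hα
  obtain ⟨d, hd⟩ := hgen α hα
  have h3 := hw.1 _ hd
  rw [map_sub, map_smul, h2, smul_zero, sub_zero] at h3
  exact h3

/-- one step, second case -/
lemma omegaD_step_lt {D : CurvePt k F →₀ ℤ} {P : CurvePt k F}
    (hle : rrSpace (D + Finsupp.single P 1 : CurvePt k F →₀ ℤ) ≤ rrSpace D)
    (hfd : FiniteDimensional k (omegaD hF (D + Finsupp.single P 1))) :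
    FiniteDimensional k (omegaD hF D) ∧
      finrank k (omegaD hF D) = finrank k (omegaD hF (D + Finsupp.single P 1)) + 1 := by
  obtain ⟨a, ha, haQ, haP, hgen⟩ := exists_generator hF D P
  -- the subspace of adeles on which differentials in `omegaD D` vanish
  let S : Submodule k (adele k F) :=
    { carrier := {α | ∃ β ∈ adeleD D, ∃ f, α = β + diag hF f}
      zero_mem' := ⟨0, fun P => memO_zero _ _, 0, by simp⟩
      add_mem' := by
        rintro _ _ ⟨β, hβ, f, rfl⟩ ⟨β', hβ', f', rfl⟩
        exact ⟨β + β', fun P => memO_add (hβ P) (hβ' P), f + f', by rw [map_add]; abel⟩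
      smul_mem' := by
        rintro c _ ⟨β, hβ, f, rfl⟩
        exact ⟨c • β, fun P => memO_smul c (hβ P), c • f, by rw [map_smul, smul_add]⟩ }
  have haS : a ∉ S := by
    rintro ⟨β, hβ, f, hf⟩
    have h1 : f ∈ rrSpace (D + Finsupp.single P 1 : CurvePt k F →₀ ℤ) := by
      intro Q
      have h2 : f = a.1 Q - β.1 Q := by
        have := congrArg (fun α : adele k F => α.1 Q) hf
        rw [this]
        change f = β.1 Q + f - β.1 Q
        ring
      rw [h2]
      exact memO_sub (ha Q) (memO_mono (le_add_point D P Q) (hβ Q))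
    have h2 := hle h1
    apply haP
    have h3 : a.1 P = β.1 P + f := congrArg (fun α : adele k F => α.1 P) hf
    rw [h3]
    exact memO_add (hβ P) (h2 P)
  obtain ⟨w0, hw0a, hw0S⟩ := Submodule.exists_dual_map_eq_bot_of_notMem haS inferInstance
  have hw0 : w0 ∈ omegaD hF D := by
    have hz : ∀ α ∈ S, w0 α = 0 := by
      intro α hα
      have : w0 α ∈ S.map w0 := ⟨α, hα, rfl⟩
      rw [hw0S] at this
      exact this
    exact ⟨fun α hα => hz α ⟨α, hα, 0, by simp⟩,
      fun f => hz _ ⟨0, fun P => memO_zero _ _, f, by simp⟩⟩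
  have hmem : ∀ w ∈ omegaD hF D, w a = 0 → w ∈ omegaD hF (D + Finsupp.single P 1) := by
    intro w hw hwa
    refine ⟨?_, hw.2⟩
    intro α hα
    obtain ⟨d, hd⟩ := hgen α hα
    have h3 := hw.1 _ hd
    rw [map_sub, map_smul, hwa, smul_zero, sub_zero] at h3
    exact h3
  have hsup : omegaD hF D = omegaD hF (D + Finsupp.single P 1) ⊔ Submodule.span k {w0} := by
    apply le_antisymm
    · intro w hw
      have h1 : w - (w a / w0 a) • w0 ∈ omegaD hF (D + Finsupp.single P 1) := by
        apply hmem _ (Submodule.sub_mem _ hw (Submodule.smul_mem _ _ hw0))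
        rw [LinearMap.sub_apply, LinearMap.smul_apply, smul_eq_mul, div_mul_cancel₀ _ hw0a,
          sub_self]
      have h2 : w = (w - (w a / w0 a) • w0) + (w a / w0 a) • w0 := by abel
      rw [h2]
      exact Submodule.add_mem_sup h1
        (Submodule.smul_mem _ _ (Submodule.mem_span_singleton_self w0))
    · apply sup_le (omegaD_anti hF (le_add_point D P))
      rw [Submodule.span_singleton_le_iff_mem]
      exact hw0
  have hdisj : Disjoint (omegaD hF (D + Finsupp.single P 1)) (Submodule.span k {w0}) := by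
    rw [Submodule.disjoint_def]
    intro w hw hw'
    obtain ⟨c, rfl⟩ := Submodule.mem_span_singleton.mp hw'
    have h1 := hw.1 a ha
    rw [LinearMap.smul_apply, smul_eq_mul] at h1
    rw [(mul_eq_zero.mp h1).resolve_right hw0a, zero_smul]
  have hspan : finrank k (Submodule.span k {w0}) = 1 := by
    apply finrank_span_singleton
    rintro rfl
    exact hw0a rfl
  have h1 := Submodule.finrank_sup_add_finrank_inf_eq (omegaD hF (D + Finsupp.single P 1))
    (Submodule.span k {w0})
  rw [hdisj.eq_bot, finrank_bot, hspan, add_zero] at h1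
  constructor
  · rw [hsup]
    infer_instance
  · rw [hsup, h1]

end Pool.Agent.Helper24.Coh
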