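import Mathlib
import Pool.Agent.Helper24.Coh.Defs
import Pool.Agent.Helper24.Coh.Finite

/-!
Line subbundles of a rank two bundle.
-/

open Module Pool.Agent.Helper11

namespace Pool.Agent.Helper24.Coh

universe u

variable {k F : Type u} [Field k] [Field F] [Algebra k F]

lemma exists_ord_eq (P : CurvePt k F) (n : ℤ) : ∃ f : F, f ≠ 0 ∧ P.ord f = n := by
  obtain ⟨t, ht0, ht⟩ := P.exists_ord_eq_one
  rcases Int.eq_nat_or_neg n with ⟨m, rfl | rfl⟩
  · exact ⟨t ^ m, pow_ne_zero m ht0, by rw [P.ord_pow ht0, ht, mul_one]⟩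
  · exact ⟨(t ^ m)⁻¹, inv_ne_zero (pow_ne_zero m ht0), by
      rw [P.ord_inv, P.ord_pow ht0, ht, mul_one]⟩

/-- `m` is the order of the nonzero vector `s` in the stalk of `E` at `P` -/
def Bundle.IsOrd (E : Bundle k F) (P : CurvePt k F) (s : Fin 2 → F) (m : ℤ) : Prop :=
  ∀ f : F, f ≠ 0 → (f • s ∈ E.stalk P ↔ -m ≤ P.ord f)

lemma Bundle.IsOrd.lineOrd_eq {E : Bundle k F} {P : CurvePt k F} {s : Fin 2 → F} {m : ℤ}
    (h : E.IsOrd P s m) : E.lineOrd P s = m := by
  have hset : {n : ℤ | ∃ f : F, f ≠ 0 ∧ f • s ∈ E.stalk P ∧ n = - P.ord f} = Set.Iic m := by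
    ext n
    simp only [Set.mem_ofPred_eq, Set.mem_Iic]
    constructor
    · rintro ⟨f, hf0, hf, rfl⟩
      have := (h f hf0).mp hf
      omega
    · intro hn
      obtain ⟨f, hf0, hf⟩ := exists_ord_eq P (-n)
      exact ⟨f, hf0, (h f hf0).mpr (by omega), by omega⟩
  rw [Bundle.lineOrd, hset]
  exact csSup_Iic

/-- order of a nonzero vector in the standard lattice -/
lemma exists_min_ord (P : CurvePt k F) {u : Fin 2 → F} (hu : u ≠ 0) :
    ∃ m : ℤ, (∀ i, u i = 0 ∨ m ≤ P.ord (u i)) ∧ ∃ i, u i ≠ 0 ∧ P.ord (u i) = m := by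
  by_cases h0 : u 0 = 0
  · have h1 : u 1 ≠ 0 := by
      intro h1
      apply hu
      ext i
      fin_cases i
      · exact h0
      · exact h1
    refine ⟨P.ord (u 1), ?_, 1, h1, rfl⟩
    intro i
    fin_cases i
    · exact Or.inl h0
    · exact Or.inr le_rfl
  · by_cases h1 : u 1 = 0
    · refine ⟨P.ord (u 0), ?_, 0, h0, rfl⟩
      intro i
      fin_cases i
      · exact Or.inr le_rfl
      · exact Or.inl h1
    · rcases le_total (P.ord (u 0)) (P.ord (u 1)) with h | h
      · refine ⟨P.ord (u 0), ?_, 0, h0, rfl⟩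
        intro i
        fin_cases i
        · exact Or.inr le_rfl
        · exact Or.inr h
      · refine ⟨P.ord (u 1), ?_, 1, h1, rfl⟩
        intro i
        fin_cases i
        · exact Or.inr h
        · exact Or.inr le_rfl

lemma smul_mem_iff_min_ord (P : CurvePt k F) {u : Fin 2 → F} {m : ℤ}
    (h1 : ∀ i, u i = 0 ∨ m ≤ P.ord (u i)) (h2 : ∃ i, u i ≠ 0 ∧ P.ord (u i) = m) {f : F}
    (hf : f ≠ 0) : (∀ i, (f • u) i ∈ P.ring) ↔ -m ≤ P.ord f := by
  constructor
  · intro h
    obtain ⟨i, hi0, hi⟩ := h2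
    have h3 := h i
    rw [Pi.smul_apply, smul_eq_mul, P.mem_ring_iff (mul_ne_zero hf hi0), P.ord_mul hf hi0] at h3
    omega
  · intro h i
    rw [Pi.smul_apply, smul_eq_mul]
    rcases h1 i with hi | hi
    · rw [hi, mul_zero]; exact P.ring.zero_mem
    · by_cases hi0 : u i = 0
      · rw [hi0, mul_zero]; exact P.ring.zero_mem
      · rw [P.mem_ring_iff (mul_ne_zero hf hi0), P.ord_mul hf hi0]
        omega

lemma exists_isOrd (E : Bundle k F) (P : CurvePt k F) {s : Fin 2 → F} (hs : s ≠ 0) :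
    ∃ m : ℤ, E.IsOrd P s m := by
  obtain ⟨A, hA, hst⟩ := E.loc_free P
  have hAu : IsUnit A.det := isUnit_iff_ne_zero.mpr hA
  set u : Fin 2 → F := A⁻¹.mulVec s with hu
  have hsu : s = A.mulVec u := by
    rw [hu, Matrix.mulVec_mulVec, Matrix.mul_nonsing_inv _ hAu, Matrix.one_mulVec]
  have hu0 : u ≠ 0 := by
    intro h
    rw [h, Matrix.mulVec_zero] at hsu
    exact hs hsu
  obtain ⟨m, h1, h2⟩ := exists_min_ord P hu0
  refine ⟨m, fun f hf => ?_⟩
  rw [← smul_mem_iff_min_ord P h1 h2 hf, hst]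
  constructor
  · rintro ⟨y, hy, hxy⟩
    have h3 : y = f • u := by
      have h4 : A.mulVec y = A.mulVec (f • u) := by
        rw [← hxy, Matrix.mulVec_smul, ← hsu]
      have h5 : A⁻¹.mulVec (A.mulVec y) = A⁻¹.mulVec (A.mulVec (f • u)) := by rw [h4]
      rwa [Matrix.mulVec_mulVec, Matrix.mulVec_mulVec, Matrix.nonsing_inv_mul _ hAu,
        Matrix.one_mulVec, Matrix.one_mulVec] at h5
    rw [← h3]
    exact hy
  · intro h
    refine ⟨f • u, h, ?_⟩
    rw [Matrix.mulVec_smul, ← hsu]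

lemma isOrd_lineOrd (E : Bundle k F) (P : CurvePt k F) {s : Fin 2 → F} (hs : s ≠ 0) :
    E.IsOrd P s (E.lineOrd P s) := by
  obtain ⟨m, hm⟩ := exists_isOrd E P hs
  rw [hm.lineOrd_eq]
  exact hm

lemma lineOrd_standard (E : Bundle k F) (P : CurvePt k F) {s : Fin 2 → F}
    (hst : ∀ x : Fin 2 → F, x ∈ E.stalk P ↔ ∀ i, x i ∈ P.ring) {m : ℤ}
    (h1 : ∀ i, s i = 0 ∨ m ≤ P.ord (s i)) (h2 : ∃ i, s i ≠ 0 ∧ P.ord (s i) = m) :
    E.lineOrd P s = m := by
  apply Bundle.IsOrd.lineOrd_eq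
  intro f hf
  rw [hst, smul_mem_iff_min_ord P h1 h2 hf]

variable [IsAlgClosed k] [CharZero k]

lemma finite_lineOrd (hF : IsCurveField k F) (E : Bundle k F) {s : Fin 2 → F} (hs : s ≠ 0) :
    {P | E.lineOrd P s ≠ 0}.Finite := by
  have h0 := finite_support_ord hF (s 0)
  have h1 := finite_support_ord hF (s 1)
  refine ((E.generic.union h0).union h1).subset ?_
  intro P hP
  by_contra hcon
  simp only [Set.mem_union, Set.mem_ofPred_eq, not_or, not_not] at hcon
  apply hP
  apply lineOrd_standard E P hcon.1.1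
  · intro i
    right
    fin_cases i
    · exact hcon.1.2.ge
    · exact hcon.2.ge
  · obtain ⟨i, hi⟩ := Function.ne_iff.mp hs
    refine ⟨i, hi, ?_⟩
    fin_cases i
    · exact hcon.1.2
    · exact hcon.2

lemma exists_lineDiv (hF : IsCurveField k F) (E : Bundle k F) {s : Fin 2 → F} (hs : s ≠ 0) :
    ∃ D : CurvePt k F →₀ ℤ, (∀ P, D P = E.lineOrd P s) ∧ deg D = E.lineDeg s := by
  refine ⟨Finsupp.ofSupportFinite (fun P => E.lineOrd P s) (finite_lineOrd hF E hs),
    fun P => rfl, ?_⟩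
  rw [deg_eq_finsum]
  rfl

omit [IsAlgClosed k] [CharZero k] in
lemma wedge_smul_left (f : F) (x y : Fin 2 → F) : wedge (f • x) y = f * wedge x y := by
  simp only [wedge, Pi.smul_apply, smul_eq_mul]; ring

omit [IsAlgClosed k] [CharZero k] in
/-- `s ∧ x` is a section of `O(W - D_s)` at `P` if `x` is in the stalk of `E` -/
lemma wedge_memO {E : Bundle k F} {W : CurvePt k F →₀ ℤ} {c : F}
    (hc : ∀ (P : CurvePt k F) (f : F),
      (∃ x ∈ E.stalk P, ∃ y ∈ E.stalk P, f = c * wedge x y) ↔ MemO (W P) P f)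
    {P : CurvePt k F} {s : Fin 2 → F} (hs : s ≠ 0) {x : Fin 2 → F} (hx : x ∈ E.stalk P) :
    MemO (W P - E.lineOrd P s) P (c * wedge s x) := by
  have h1 := isOrd_lineOrd E P hs
  obtain ⟨f, hf0, hf⟩ := exists_ord_eq P (-E.lineOrd P s)
  have h2 : f • s ∈ E.stalk P := (h1 f hf0).mpr (by omega)
  have h3 : MemO (W P) P (c * wedge (f • s) x) := (hc P _).mp ⟨f • s, h2, x, hx, rfl⟩
  rw [wedge_smul_left] at h3
  have h4 : MemO (-E.lineOrd P s) P f⁻¹ := by
    right
    rw [P.ord_inv]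
    omega
  have h5 := memO_mul h4 h3
  have h6 : f⁻¹ * (c * (f * wedge s x)) = c * wedge s x := by
    field_simp
  rw [h6] at h5
  exact memO_mono (by omega) h5

omit [IsAlgClosed k] [CharZero k] in
lemma exists_smul_of_wedge_eq_zero {s x : Fin 2 → F} (hs : s ≠ 0) (h : wedge s x = 0) :
    ∃ f : F, x = f • s := by
  rw [wedge, sub_eq_zero] at h
  by_cases h0 : s 0 = 0
  · have h1 : s 1 ≠ 0 := by
      intro h1
      apply hs
      ext i
      fin_cases i
      · exact h0
      · exact h1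
    rw [h0, zero_mul] at h
    have hx0 : x 0 = 0 := by
      rcases mul_eq_zero.mp h.symm with h | h
      · exact absurd h h1
      · exact h
    refine ⟨x 1 / s 1, ?_⟩
    ext i
    fin_cases i
    · simp [hx0, h0]
    · simp [div_mul_cancel₀ _ h1]
  · refine ⟨x 0 / s 0, ?_⟩
    ext i
    fin_cases i
    · simp [div_mul_cancel₀ _ h0]
    · simp only [Fin.mk_one, Pi.smul_apply, smul_eq_mul]
      field_simp
      linear_combination h

omit [IsAlgClosed k] [CharZero k] in
/-- the `k`-subspace of vectors proportional to `s` over `F` -/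
lemma exists_lineSub (k : Type u) [Field k] [Algebra k F] (s : Fin 2 → F) :
    ∃ T : Submodule k (Fin 2 → F), ∀ x, x ∈ T ↔ ∃ f : F, x = f • s := by
  refine ⟨{ carrier := {x | ∃ f : F, x = f • s}, zero_mem' := ⟨0, by simp⟩,
            add_mem' := ?_, smul_mem' := ?_ }, fun x => Iff.rfl⟩
  · rintro _ _ ⟨f, rfl⟩ ⟨g, rfl⟩
    exact ⟨f + g, by rw [add_smul]⟩
  · rintro a _ ⟨f, rfl⟩
    exact ⟨a • f, by rw [smul_assoc]⟩

/-- dimension count for the projection to the quotient line bundle -/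
lemma finrank_le_quotient (hF : IsCurveField k F) {E : Bundle k F} {W : CurvePt k F →₀ ℤ}
    (hdet : E.DetIso W) {H : Submodule k (Fin 2 → F)} (hH : E.IsSections H)
    [FiniteDimensional k H] {s : Fin 2 → F} (hs : s ≠ 0) {D : CurvePt k F →₀ ℤ}
    (hD : ∀ P, D P = E.lineOrd P s) :
    ∃ U : Submodule k (Fin 2 → F), U ≤ H ∧ (∀ x ∈ U, ∃ f : F, x = f • s) ∧
      finrank k H ≤ finrank k U + ell (W - D) := by
  obtain ⟨c, hc0, hc⟩ := hdet
  obtain ⟨T, hT⟩ := exists_lineSub k s
  let φ : (Fin 2 → F) →ₗ[k] F :=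
    { toFun := fun x => c * wedge s x
      map_add' := by
        intro x y
        simp only [wedge, Pi.add_apply]; ring
      map_smul' := by
        intro a x
        simp only [wedge, Pi.smul_apply, RingHom.id_apply, Algebra.smul_def]; ring }
  let ψ : H →ₗ[k] rrSpace (W - D) := LinearMap.codRestrict _ (φ.comp H.subtype) (by
    intro x P
    have := wedge_memO hc hs (hH x.1 x.2 P)
    rw [Finsupp.sub_apply, hD]
    exact this)
  have hfd := finiteDimensional_rrSpace hF (W - D)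
  have h1 := LinearMap.finrank_range_add_finrank_ker ψ
  have h2 : finrank k (LinearMap.range ψ) ≤ ell (W - D) := Submodule.finrank_le _
  refine ⟨H ⊓ T, inf_le_left, fun x hx => (hT x).mp hx.2, ?_⟩
  have h3 : finrank k (LinearMap.ker ψ) ≤ finrank k (H ⊓ T : Submodule k (Fin 2 → F)) := by
    have : FiniteDimensional k (H ⊓ T : Submodule k (Fin 2 → F)) :=
      Submodule.finiteDimensional_of_le inf_le_left
    let ι : LinearMap.ker ψ →ₗ[k] (H ⊓ T : Submodule k (Fin 2 → F)) :=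
      LinearMap.codRestrict _ (H.subtype.comp (LinearMap.ker ψ).subtype) (by
        intro x
        refine ⟨x.1.2, (hT _).mpr ?_⟩
        have hx : ψ x.1 = 0 := x.2
        have hx' : c * wedge s (x.1 : Fin 2 → F) = 0 := congrArg Subtype.val hx
        exact exists_smul_of_wedge_eq_zero hs ((mul_eq_zero.mp hx').resolve_left hc0))
    apply LinearMap.finrank_le_finrank_of_injective (f := ι)
    intro x y hxy
    have := congrArg Subtype.val hxy
    exact Subtype.ext (Subtype.ext this)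
  omega

end Pool.Agent.Helper24.Coh
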