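import Mathlib
import Pool.Agent.Helper24.Coh.Local

/-!
The bundle `O(M) ⊕ O(N)` and coherent systems on it.
-/

open Module Pool.Agent.Helper11

namespace Pool.Agent.Helper24.Coh

universe u

variable {k F : Type u} [Field k] [Field F] [Algebra k F]

lemma memO_iff_mul {P : CurvePt k F} {n : ℤ} {t f : F} (ht0 : t ≠ 0) (ht : P.ord t = -n) :
    MemO n P (t * f) ↔ f ∈ P.ring := by
  rcases eq_or_ne f 0 with rfl | hf
  · simp [MemO, P.ring.zero_mem]
  · rw [P.mem_ring_iff hf, MemO, P.ord_mul ht0 hf, ht]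
    simp [ht0, hf]

/-- `O(M) ⊕ O(N)` -/
def splitBundle (M N : CurvePt k F →₀ ℤ) : Bundle k F where
  stalk P := {x | MemO (M P) P (x 0) ∧ MemO (N P) P (x 1)}
  loc_free := by
    intro P
    obtain ⟨t, ht0, ht⟩ := exists_ord_eq P (-M P)
    obtain ⟨r, hr0, hr⟩ := exists_ord_eq P (-N P)
    refine ⟨!![t, 0; 0, r], ?_, ?_⟩
    · rw [Matrix.det_fin_two_of]
      simp [ht0, hr0]
    · intro x
      constructor
      · rintro ⟨h0, h1⟩
        refine ⟨![x 0 / t, x 1 / r], ?_, ?_⟩
        · intro i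
          fin_cases i
          · simp only [Fin.zero_eta, Matrix.cons_val_zero]
            rw [← memO_iff_mul ht0 ht, mul_div_cancel₀ _ ht0]
            exact h0
          · simp only [Fin.mk_one, Matrix.cons_val_one, Matrix.cons_val_fin_one]
            rw [← memO_iff_mul hr0 hr, mul_div_cancel₀ _ hr0]
            exact h1
        · ext i
          fin_cases i
          · simp [Matrix.mulVec, dotProduct, Fin.sum_univ_two, mul_div_cancel₀ _ ht0]
          · simp [Matrix.mulVec, dotProduct, Fin.sum_univ_two, mul_div_cancel₀ _ hr0]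
      · rintro ⟨y, hy, rfl⟩
        constructor
        · have := (memO_iff_mul ht0 ht).mpr (hy 0)
          simpa [Matrix.mulVec, dotProduct, Fin.sum_univ_two] using this
        · have := (memO_iff_mul hr0 hr).mpr (hy 1)
          simpa [Matrix.mulVec, dotProduct, Fin.sum_univ_two] using this
  generic := by
    classical
    refine ((M.support.finite_toSet).union (N.support.finite_toSet)).subset ?_
    intro P hP
    by_contra hcon
    simp only [Set.mem_union, Finset.mem_coe, Finsupp.mem_support_iff, not_or, not_not] at hcon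
    apply hP
    intro x
    rw [Set.mem_ofPred_eq, hcon.1, hcon.2, memO_zero_iff, memO_zero_iff, Fin.forall_fin_two]

lemma mem_splitBundle {M N : CurvePt k F →₀ ℤ} {P : CurvePt k F} {x : Fin 2 → F} :
    x ∈ (splitBundle M N).stalk P ↔ MemO (M P) P (x 0) ∧ MemO (N P) P (x 1) := Iff.rfl

lemma splitBundle_detIso (M W : CurvePt k F →₀ ℤ) : (splitBundle M (W - M)).DetIso W := by
  refine ⟨1, one_ne_zero, fun P f => ?_⟩
  constructor
  · rintro ⟨x, hx, y, hy, rfl⟩
    rw [mem_splitBundle] at hx hy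
    rw [one_mul, wedge]
    have h1 := memO_mul hx.1 hy.2
    have h2 := memO_mul hx.2 hy.1
    rw [Finsupp.sub_apply] at h1 h2
    exact memO_sub (memO_mono (by omega) h1) (memO_mono (by omega) h2)
  · intro hf
    obtain ⟨t, ht0, ht⟩ := exists_ord_eq P (-M P)
    refine ⟨![t, 0], ?_, ![0, f / t], ?_, ?_⟩
    · rw [mem_splitBundle]
      exact ⟨Or.inr (by simp [ht]), Or.inl rfl⟩
    · rw [mem_splitBundle]
      refine ⟨Or.inl rfl, ?_⟩
      simp only [Matrix.cons_val_one]
      have h1 : MemO (-M P) P t⁻¹ := by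
        right
        rw [P.ord_inv, ht]
      have := memO_mul hf h1
      rw [div_eq_mul_inv, Finsupp.sub_apply]
      exact memO_mono (by omega) this
    · simp [wedge, mul_div_cancel₀ _ ht0]

lemma splitBundle_isOrd_zero {M N : CurvePt k F →₀ ℤ} {P : CurvePt k F} {s : Fin 2 → F}
    (h0 : s 0 = 0) (h1 : s 1 ≠ 0) : (splitBundle M N).IsOrd P s (P.ord (s 1) + N P) := by
  intro f hf
  rw [mem_splitBundle]
  simp only [Pi.smul_apply, smul_eq_mul, h0, mul_zero, memO_zero, true_and]
  rw [MemO, P.ord_mul hf h1]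
  simp only [mul_eq_zero, hf, h1, or_self, false_or]
  constructor <;> intro h <;> omega

lemma splitBundle_le {M N : CurvePt k F →₀ ℤ} {P : CurvePt k F} {s : Fin 2 → F}
    (h0 : s 0 ≠ 0) : (splitBundle M N).lineOrd P s ≤ P.ord (s 0) + M P := by
  have hs : s ≠ 0 := by
    rintro rfl
    exact h0 rfl
  have h1 := isOrd_lineOrd (splitBundle M N) P hs
  obtain ⟨f, hf0, hf⟩ := exists_ord_eq P (-(splitBundle M N).lineOrd P s)
  have h2 := (h1 f hf0).mpr (by omega)
  rw [mem_splitBundle, Pi.smul_apply, smul_eq_mul, MemO, P.ord_mul hf0 h0] at h2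
  rcases h2.1 with h | h
  · exact absurd h (mul_ne_zero hf0 h0)
  · omega

lemma splitBundle_le_one {M N : CurvePt k F →₀ ℤ} {P : CurvePt k F} {s : Fin 2 → F}
    (h0 : s 1 ≠ 0) : (splitBundle M N).lineOrd P s ≤ P.ord (s 1) + N P := by
  have hs : s ≠ 0 := by
    rintro rfl
    exact h0 rfl
  have h1 := isOrd_lineOrd (splitBundle M N) P hs
  obtain ⟨f, hf0, hf⟩ := exists_ord_eq P (-(splitBundle M N).lineOrd P s)
  have h2 := (h1 f hf0).mpr (by omega)
  rw [mem_splitBundle, Pi.smul_apply, Pi.smul_apply, smul_eq_mul, smul_eq_mul] at h2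
  have h3 := h2.2
  rw [MemO, P.ord_mul hf0 h0] at h3
  rcases h3 with h | h
  · exact absurd h (mul_ne_zero hf0 h0)
  · omega

variable [IsAlgClosed k] [CharZero k]

lemma splitBundle_lineDeg_zero (hF : IsCurveField k F) {M N : CurvePt k F →₀ ℤ}
    {s : Fin 2 → F} (h0 : s 0 = 0) (h1 : s 1 ≠ 0) : (splitBundle M N).lineDeg s = deg N := by
  obtain ⟨E, hE, hE0⟩ := sum_ord_support hF (f := s 1)
  have hs : s ≠ 0 := by
    rintro rfl
    exact h1 rfl
  obtain ⟨D, hD, hD0⟩ := exists_lineDiv hF (splitBundle M N) hs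
  have : D = E + N := by
    ext P
    rw [hD, (splitBundle_isOrd_zero h0 h1).lineOrd_eq, Finsupp.add_apply, hE]
  rw [← hD0, this, deg_add, hE0, zero_add]

/-- either the degree is small or `s 1 / s 0` is a homomorphism `O(M) → O(N)` -/
lemma splitBundle_lineDeg_ne_zero (hF : IsCurveField k F) {M N : CurvePt k F →₀ ℤ}
    {s : Fin 2 → F} (h0 : s 0 ≠ 0) : (splitBundle M N).lineDeg s ≤ deg M ∧
      ((splitBundle M N).lineDeg s = deg M → ∀ P : CurvePt k F,
        MemO ((N - M) P) P (s 1 / s 0)) := by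
  obtain ⟨E, hE, hE0⟩ := sum_ord_support hF (f := s 0)
  have hs : s ≠ 0 := by
    rintro rfl
    exact h0 rfl
  obtain ⟨D, hD, hD0⟩ := exists_lineDiv hF (splitBundle M N) hs
  have hle : ∀ P, D P ≤ (E + M) P := by
    intro P
    rw [hD, Finsupp.add_apply, hE]
    exact splitBundle_le h0
  have hdeg : deg (E + M) = deg M := by rw [deg_add, hE0, zero_add]
  constructor
  · rw [← hD0, ← hdeg]
    exact deg_mono hle
  · intro heq P
    rw [← hD0] at heq
    have h2 : D = E + M := eq_of_le_of_deg_le hle (by omega)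
    have h3 : (splitBundle M N).lineOrd P s = P.ord (s 0) + M P := by
      rw [← hD, h2, Finsupp.add_apply, hE]
    rcases eq_or_ne (s 1) 0 with h1 | h1
    · left
      rw [h1, zero_div]
    · right
      have h4 := splitBundle_le_one (M := M) (N := N) (P := P) h1
      rw [h3] at h4
      rw [Finsupp.sub_apply, div_eq_mul_inv, P.ord_mul h1 (inv_ne_zero h0), P.ord_inv]
      omega

/-- two sections of a line bundle of degree zero are proportional -/
lemma proportional_of_deg_zero (hF : IsCurveField k F) {D : CurvePt k F →₀ ℤ}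
    (hD : deg D = 0) {h h' : F} (h0 : h ≠ 0) (hh : h ∈ rrSpace D) (hh' : h' ∈ rrSpace D) :
    ∃ c : k, h' = c • h := by
  obtain ⟨E, hE, hE0⟩ := sum_ord_support hF (f := h)
  have h1 : -D = E := by
    apply eq_of_le_of_deg_le
    · intro P
      rw [hE, Finsupp.neg_apply]
      rcases hh P with h | h
      · exact absurd h h0
      · exact h
    · rw [hE0, deg_neg, hD, neg_zero]
  have h2 : ∀ P : CurvePt k F, MemO 0 P (h' / h) := by
    intro P
    have h3 : MemO (-(D P)) P h⁻¹ := by
      right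
      rw [P.ord_inv, ← hE, ← h1, Finsupp.neg_apply]
    have h4 := memO_mul (hh' P) h3
    rw [div_eq_mul_inv]
    exact memO_mono (by omega) h4
  obtain ⟨c, hc⟩ := mem_range_of_regular hF h2
  refine ⟨c, ?_⟩
  rw [Algebra.smul_def, hc, div_mul_cancel₀ _ h0]

end Pool.Agent.Helper24.Coh
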