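import Mathlib
import Pool.Agent.Helper24.Coh.Split

/-!
A stable coherent system on `O(M) ⊕ O(W - M)`, `deg M = g - 1`.
-/

open Module Pool.Agent.Helper11

namespace Pool.Agent.Helper24.Coh

universe u

variable {k F : Type u} [Field k] [Field F] [Algebra k F]

/-- multiplication by a section of `O(N - M)` -/
def mulMap {M N : CurvePt k F →₀ ℤ} (h : F) (hh : h ∈ rrSpace (N - M)) :
    rrSpace M →ₗ[k] rrSpace N where
  toFun f := ⟨h * f.1, fun P => by
    have h1 := memO_mul (hh P) (f.2 P)
    rw [Finsupp.sub_apply] at h1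
    exact memO_mono (by omega) h1⟩
  map_add' f g := Subtype.ext (by simp [mul_add])
  map_smul' c f := Subtype.ext (by simp)

variable [IsAlgClosed k] [CharZero k]

lemma exists_functionals (hF : IsCurveField k F) {M N : CurvePt k F →₀ ℤ}
    (hd : deg M = deg N) (hl : ell M = ell N) (h2 : 2 ≤ ell M) :
    ∃ (l1 : rrSpace M →ₗ[k] k) (l2 : rrSpace N →ₗ[k] k), l2 ≠ 0 ∧
      ∀ (h : F) (hh : h ∈ rrSpace (N - M)), l1 + l2.comp (mulMap h hh) ≠ 0 := by
  have hfM := finiteDimensional_rrSpace hF M
  have hfN := finiteDimensional_rrSpace hF N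
  let b : Basis (Fin (ell M)) k (rrSpace M) := finBasis k (rrSpace M)
  by_cases hcase : ∃ h ∈ rrSpace (N - M), h ≠ 0
  · obtain ⟨h0, hh0, hne⟩ := hcase
    have hinj : Function.Injective (mulMap h0 hh0) := by
      intro f g hfg
      have h1 := congrArg Subtype.val hfg
      exact Subtype.ext (mul_left_cancel₀ hne h1)
    let e : rrSpace M ≃ₗ[k] rrSpace N := LinearEquiv.ofInjectiveOfFinrankEq (mulMap h0 hh0) hinj hl
    refine ⟨b.coord ⟨0, by omega⟩, (b.coord ⟨1, by omega⟩).comp e.symm.toLinearMap, ?_, ?_⟩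
    · intro h1
      have h3 := LinearMap.congr_fun h1 (e (b ⟨1, by omega⟩))
      simp at h3
    · intro h hh h1
      obtain ⟨c, hc⟩ := proportional_of_deg_zero hF (D := N - M) (by rw [deg_sub]; omega) hne hh0 hh
      have h3 := LinearMap.congr_fun h1 (b ⟨0, by omega⟩)
      have h4 : mulMap h hh (b ⟨0, by omega⟩) = c • e (b ⟨0, by omega⟩) := by
        apply Subtype.ext
        change h * _ = c • (h0 * _)
        rw [hc, smul_mul_assoc]
      simp [h4] at h3
  · push Not at hcase
    refine ⟨b.coord ⟨0, by omega⟩, (finBasis k (rrSpace N)).coord ⟨0, by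
      have : finrank k (rrSpace N) = ell N := rfl
      omega⟩, ?_, ?_⟩
    · intro h1
      have h3 := LinearMap.congr_fun h1 (finBasis k (rrSpace N) ⟨0, by
        have : finrank k (rrSpace N) = ell N := rfl
        omega⟩)
      simp at h3
    · intro h hh h1
      have h3 := LinearMap.congr_fun h1 (b ⟨0, by omega⟩)
      have h4 : mulMap h hh (b ⟨0, by omega⟩) = 0 := by
        apply Subtype.ext
        change h * _ = 0
        rw [hcase h hh, zero_mul]
      simp [h4] at h3

/-- the space of sections `(f, g)` of `O(M) ⊕ O(N)` with `l1 f + l2 g = 0` -/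
noncomputable def hyper {M N : CurvePt k F →₀ ℤ} (l1 : rrSpace M →ₗ[k] k)
    (l2 : rrSpace N →ₗ[k] k) : Submodule k (Fin 2 → F) :=
  (LinearMap.ker (l1.coprod l2)).map
    ({ toFun := fun p => ![(p.1 : F), (p.2 : F)]
       map_add' := by
        intro p q
        ext i
        fin_cases i <;> simp
       map_smul' := by
        intro c p
        ext i
        fin_cases i <;> simp } : (rrSpace M × rrSpace N) →ₗ[k] (Fin 2 → F))

omit [IsAlgClosed k] [CharZero k] in
lemma mem_hyper {M N : CurvePt k F →₀ ℤ} {l1 : rrSpace M →ₗ[k] k}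
    {l2 : rrSpace N →ₗ[k] k} {x : Fin 2 → F} : x ∈ hyper l1 l2 ↔
      ∃ (f : rrSpace M) (g : rrSpace N), l1 f + l2 g = 0 ∧ x 0 = f ∧ x 1 = g := by
  rw [hyper, Submodule.mem_map]
  constructor
  · rintro ⟨p, hp, rfl⟩
    rw [LinearMap.mem_ker, LinearMap.coprod_apply] at hp
    exact ⟨p.1, p.2, hp, rfl, rfl⟩
  · rintro ⟨f, g, h, h0, h1⟩
    refine ⟨(f, g), ?_, ?_⟩
    · rw [LinearMap.mem_ker, LinearMap.coprod_apply]
      exact h
    · ext i
      fin_cases i
      · exact h0.symm
      · exact h1.symm

lemma finrank_hyper (hF : IsCurveField k F) {M N : CurvePt k F →₀ ℤ} {l1 : rrSpace M →ₗ[k] k}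
    {l2 : rrSpace N →ₗ[k] k} (h : l2 ≠ 0) :
    finrank k (hyper l1 l2) + 1 = ell M + ell N ∧ FiniteDimensional k (hyper l1 l2) := by
  have hfM := finiteDimensional_rrSpace hF M
  have hfN := finiteDimensional_rrSpace hF N
  constructor
  · have h1 : l1.coprod l2 ≠ 0 := by
      intro h1
      apply h
      ext g
      have := LinearMap.congr_fun h1 (0, g)
      simpa using this
    have h2 : finrank k (LinearMap.ker (l1.coprod l2)) + 1 = finrank k (rrSpace M × rrSpace N) :=
      Module.Dual.finrank_ker_add_one_of_ne_zero (f := l1.coprod l2) h1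
    have h3 : finrank k (rrSpace M × rrSpace N) = ell M + ell N := Module.finrank_prod
    rw [h3] at h2
    rw [← h2, hyper]
    congr 1
    apply LinearEquiv.finrank_eq
    refine (Submodule.equivMapOfInjective _ ?_ _).symm
    intro p q hpq
    have h0 := congrFun hpq 0
    have h1 := congrFun hpq 1
    exact Prod.ext (Subtype.ext h0) (Subtype.ext h1)
  · unfold hyper
    infer_instance

omit [IsAlgClosed k] [CharZero k] in
/-- bound for the dimension of a subspace that maps into the kernel of a functional -/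
lemma finrank_le_of_ker {U : Submodule k (Fin 2 → F)} {A : Submodule k F}
    [FiniteDimensional k A] (l : A →ₗ[k] k) (hl : l ≠ 0) (i : Fin 2)
    (hmem : ∀ x ∈ U, ∃ f : A, l f = 0 ∧ x i = f) (hinj : ∀ x ∈ U, x i = 0 → x = 0) :
    finrank k U + 1 ≤ finrank k A := by
  have h1 : finrank k (LinearMap.ker l) + 1 = finrank k A :=
    Module.Dual.finrank_ker_add_one_of_ne_zero (f := l) hl
  let φ : U →ₗ[k] A := 
    { toFun := fun x => ⟨x.1 i, by
        obtain ⟨f, -, hf⟩ := hmem x.1 x.2
        rw [hf]; exact f.2⟩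
      map_add' := fun _ _ => rfl
      map_smul' := fun _ _ => rfl }
  let ψ : U →ₗ[k] LinearMap.ker l := LinearMap.codRestrict _ φ (by
    intro x
    obtain ⟨f, hf0, hf⟩ := hmem x.1 x.2
    have : φ x = f := Subtype.ext hf
    rw [LinearMap.mem_ker, this]
    exact hf0)
  have h2 : finrank k U ≤ finrank k (LinearMap.ker l) := by
    apply LinearMap.finrank_le_finrank_of_injective (f := ψ)
    refine (injective_iff_map_eq_zero ψ).mpr ?_
    intro x hx
    have h3 : x.1 i = 0 := congrArg (fun z : LinearMap.ker l => ((z : A) : F)) hx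
    exact Subtype.ext (hinj x.1 x.2 h3)
  omega

theorem gZero_of_split (hF : IsCurveField k F) {M W : CurvePt k F →₀ ℤ}
    (hd : deg M = deg (W - M)) {a : ℕ} (hM : ell M = a) (hN : ell (W - M) = a) (h2 : 2 ≤ a) :
    GZeroNonempty W (2 * a - 1) := by
  have hfM := finiteDimensional_rrSpace hF M
  have hfN := finiteDimensional_rrSpace hF (W - M)
  obtain ⟨l1, l2, hl2, hl⟩ := exists_functionals hF hd (by rw [hM, hN]) (by omega)
  obtain ⟨hfr, hfd⟩ := finrank_hyper hF (l1 := l1) hl2
  have hWd : deg W = 2 * deg M := by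
    rw [deg_sub] at hd
    omega
  have ha : (2 : ℝ) ≤ a := by exact_mod_cast h2
  have hfr' : finrank k (hyper l1 l2) = 2 * a - 1 := by omega
  have hfr'' : (finrank k (hyper l1 l2) : ℝ) = 2 * a - 1 := by
    rw [hfr', Nat.cast_sub (by omega)]
    push_cast
    ring
  refine ⟨splitBundle M (W - M), hyper l1 l2, 1 / (2 * a), by positivity, ?_⟩
  intro α hα hα'
  refine ⟨splitBundle_detIso M W, ?_, hfr', ?_, ?_⟩
  · intro x hx P
    obtain ⟨f, g, -, h0, h1⟩ := mem_hyper.mp hx
    rw [mem_splitBundle, h0, h1]
    exact ⟨f.2 P, g.2 P⟩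
  · intro s hs U hU hUs
    rw [hfr'', hWd]
    have hUfd : FiniteDimensional k U := Submodule.finiteDimensional_of_le hU
    -- it suffices to bound degree and dimension
    have key1 : ∀ (d : ℤ), d = deg M → finrank k U + 1 ≤ a →
        (d : ℝ) + α * finrank k U < ((2 * deg M : ℤ) + α * (2 * a - 1)) / 2 := by
      intro d hdd hu
      have hu' : (finrank k U : ℝ) + 1 ≤ a := by exact_mod_cast hu
      rw [hdd]
      push_cast
      nlinarith
    by_cases h0 : s 0 = 0
    · have h1 : s 1 ≠ 0 := by
        intro h1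
        apply hs
        ext i
        fin_cases i
        · exact h0
        · exact h1
      apply key1 _ (by rw [splitBundle_lineDeg_zero hF h0 h1, hd])
      rw [← hN]
      apply finrank_le_of_ker l2 hl2 1
      · intro x hx
        obtain ⟨f, g, hfg, hx0, hx1⟩ := mem_hyper.mp (hU hx)
        obtain ⟨r, hr⟩ := hUs x hx
        have hf : f = 0 := by
          apply Subtype.ext
          rw [← hx0, hr, Pi.smul_apply, h0, smul_zero]
          rfl
        rw [hf, map_zero, zero_add] at hfg
        exact ⟨g, hfg, hx1⟩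
      · intro x hx hx1
        obtain ⟨r, hr⟩ := hUs x hx
        rw [hr, Pi.smul_apply, smul_eq_mul] at hx1
        rw [hr, (mul_eq_zero.mp hx1).resolve_right h1, zero_smul]
    · obtain ⟨hle, heq⟩ := splitBundle_lineDeg_ne_zero hF (M := M) (N := W - M) h0
      rcases hle.lt_or_eq with hlt | heq'
      · have h3 : ((splitBundle M (W - M)).lineDeg s : ℝ) ≤ deg M - 1 := by
          have : (splitBundle M (W - M)).lineDeg s ≤ deg M - 1 := by omega
          exact_mod_cast this
        have h4 : (finrank k U : ℝ) ≤ 2 * a - 1 := by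
          rw [← hfr'']
          exact_mod_cast Submodule.finrank_mono hU
        have h5 : α * (2 * a) < 1 := by
          rw [lt_div_iff₀ (by positivity)] at hα'
          exact hα'
        push_cast
        nlinarith
      · apply key1 _ heq'
        rw [← hM]
        have hh : s 1 / s 0 ∈ rrSpace (W - M - M) := heq heq'
        apply finrank_le_of_ker _ (hl _ hh) 0
        · intro x hx
          obtain ⟨f, g, hfg, hx0, hx1⟩ := mem_hyper.mp (hU hx)
          obtain ⟨r, hr⟩ := hUs x hx
          refine ⟨f, ?_, hx0⟩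
          have hg : mulMap (s 1 / s 0) hh f = g := by
            apply Subtype.ext
            change s 1 / s 0 * (f : F) = g
            rw [← hx0, ← hx1, hr, Pi.smul_apply, Pi.smul_apply, smul_eq_mul, smul_eq_mul]
            field_simp
          rw [LinearMap.add_apply, LinearMap.comp_apply, hg]
          exact hfg
        · intro x hx hx0
          obtain ⟨r, hr⟩ := hUs x hx
          rw [hr, Pi.smul_apply, smul_eq_mul] at hx0
          rw [hr, (mul_eq_zero.mp hx0).resolve_right h0, zero_smul]
  · intro U hU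
    have h3 : finrank k U < finrank k (hyper l1 l2) := Submodule.finrank_lt_finrank_of_lt hU
    have h4 : (finrank k U : ℝ) < finrank k (hyper l1 l2) := by exact_mod_cast h3
    have h5 : α * finrank k U < α * finrank k (hyper l1 l2) := mul_lt_mul_of_pos_left h4 hα
    linarith

end Pool.Agent.Helper24.Coh
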