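import Mathlib
import Pool.Agent.Helper24.Coh.Stable

/-!
Reduction of the emptiness of `G(α; 2, K, n)` for all `α > 0` to the emptiness of `G_0(2, K, n')`.
-/

open Module Pool.Agent.Helper11

namespace Pool.Agent.Helper24.Coh

universe u

variable {k F : Type u} [Field k] [Field F] [Algebra k F]

/-- the Riemann-Roch formula for `W` and `g` -/
def IsGenusCanonical (g : ℕ) (W : CurvePt k F →₀ ℤ) : Prop :=
  ∀ D : CurvePt k F →₀ ℤ, (ell D : ℤ) - ell (W - D) = deg D + 1 - g

lemma deg_canonical {g : ℕ} {W : CurvePt k F →₀ ℤ} (hW : IsGenusCanonical g W) :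
    deg W = 2 * g - 2 := by
  have h1 := hW 0
  have h2 := hW W
  rw [sub_zero, deg_zero] at h1
  rw [sub_self] at h2
  omega

lemma exists_point {g : ℕ} (hg : 2 ≤ g) {W : CurvePt k F →₀ ℤ} (hW : IsGenusCanonical g W) :
    Nonempty (CurvePt k F) := by
  by_contra hcon
  rw [not_nonempty_iff] at hcon
  have h1 : W = 0 := by
    ext P
    exact hcon.elim P
  have h2 := deg_canonical hW
  rw [h1, deg_zero] at h2
  omega

lemma beta_antitone {g n n' : ℕ} (h : n ≤ n') : beta g n' ≤ beta g n := by
  unfold beta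
  have h1 : n * (n + 1) / 2 ≤ n' * (n' + 1) / 2 := by
    apply Nat.div_le_div_right
    exact Nat.mul_le_mul h (by omega)
  omega

lemma three_le_of_beta_neg {g n : ℕ} (hg : 2 ≤ g) (h : beta g n < 0) : 3 ≤ n := by
  by_contra hcon
  have : n = 0 ∨ n = 1 ∨ n = 2 := by omega
  unfold beta at h
  rcases this with rfl | rfl | rfl <;> norm_num at h <;> omega

variable [IsAlgClosed k] [CharZero k]

theorem exists_gZero (hF : IsCurveField k F) {g : ℕ} (hg : 2 ≤ g) {W : CurvePt k F →₀ ℤ}
    (hW : IsGenusCanonical g W) {n : ℕ} (hn : 1 ≤ n) (hβ : beta g n < 0) {α : ℝ} (hα : 0 < α)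
    (h : GNonempty W n α) : ∃ n' ≥ n, GZeroNonempty W n' := by
  classical
  obtain ⟨E, H, hEH⟩ := h
  have hdW := deg_canonical hW
  have hfd : FiniteDimensional k H := FiniteDimensional.of_finrank_pos (by rw [hEH.dim]; omega)
  by_cases hss : ∀ s : Fin 2 → F, s ≠ 0 → E.lineDeg s ≤ g - 1
  · -- semistable bundle
    refine ⟨n, le_rfl, E, H, α, hα, ?_⟩
    intro α' hα' hlt
    refine ⟨hEH.det, hEH.sections, hEH.dim, ?_, ?_⟩
    · intro s hs U hU hUs
      have h1 := hEH.stable.1 s hs U hU hUs
      have h2 : (E.lineDeg s : ℝ) ≤ g - 1 := by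
        have := hss s hs
        have h3 : ((E.lineDeg s : ℤ) : ℝ) ≤ ((g - 1 : ℤ) : ℝ) := by exact_mod_cast this
        push_cast at h3
        exact h3
      rw [hdW] at h1 ⊢
      push_cast at h1 ⊢
      rcases le_or_gt ((finrank k U : ℝ)) ((finrank k H : ℝ) / 2) with hle | hgt
      · rcases hle.lt_or_eq with hlt' | heq
        · nlinarith
        · rw [heq] at h1 ⊢
          nlinarith
      · nlinarith
    · intro U hU
      have h3 : finrank k U < finrank k H := Submodule.finrank_lt_finrank_of_lt hU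
      have h4 : (finrank k U : ℝ) < finrank k H := by exact_mod_cast h3
      have h5 : α' * finrank k U < α' * finrank k H := mul_lt_mul_of_pos_left h4 hα'
      linarith
  · push Not at hss
    obtain ⟨s, hs, hdeg⟩ := hss
    obtain ⟨D, hD, hDdeg⟩ := exists_lineDiv hF E hs
    obtain ⟨U, hU, hUs, hdim⟩ := finrank_le_quotient hF hEH.det hEH.sections hs hD
    have h1 := hEH.stable.1 s hs U hU hUs
    rw [hEH.dim] at hdim h1
    have h2 : 2 * finrank k U < n := by
      have h3 : (g : ℝ) ≤ E.lineDeg s := by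
        have : (g : ℤ) ≤ E.lineDeg s := by omega
        exact_mod_cast this
      rw [hdW] at h1
      push_cast at h1
      have h4 : α * (2 * finrank k U) < α * n := by nlinarith
      have h5 := lt_of_mul_lt_mul_left h4 hα.le
      exact_mod_cast h5
    obtain ⟨P⟩ := exists_point hg hW
    obtain ⟨e, he⟩ : ∃ e : ℕ, (e : ℤ) = deg D - (g - 1) := ⟨(deg D - (g - 1)).toNat, by omega⟩
    let M : CurvePt k F →₀ ℤ := W - D + Finsupp.single P (e : ℤ)
    have hMdeg : deg M = g - 1 := by
      change deg (W - D + Finsupp.single P (e : ℤ)) = _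
      rw [deg_add, deg_sub, deg_single, he, hdW]
      ring
    have hell : ell (W - D) ≤ ell M := by
      apply ell_mono hF
      intro Q
      change (W - D) Q ≤ (W - D + Finsupp.single P (e : ℤ) : CurvePt k F →₀ ℤ) Q
      rw [Finsupp.add_apply, Finsupp.single_apply]
      split_ifs <;> omega
    have hRR := hW M
    have h3 : ell (W - M) = ell M := by omega
    have h4 := three_le_of_beta_neg hg hβ
    refine ⟨2 * ell M - 1, by omega, ?_⟩
    apply gZero_of_split hF (M := M) (W := W) ?_ rfl h3 (by omega)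
    rw [deg_sub, hdW, hMdeg]
    ring

end Pool.Agent.Helper24.Coh
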