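import Mathlib
import Pool.Agent.Helper24.Coh.Adele

/-!
The Riemann-Roch theorem.
-/

open Module Pool.Agent.Helper11 IntermediateField

namespace Pool.Agent.Helper24.Coh

universe u

variable {k F : Type u} [Field k] [Field F] [Algebra k F] [IsAlgClosed k] [CharZero k]

lemma exists_pt (hF : IsCurveField k F) : Nonempty (CurvePt k F) := by
  obtain ⟨B, C, -, -, h, -⟩ := exists_riemann_aux hF
  by_contra hcon
  rw [not_nonempty_iff] at hcon
  have h1 : B = 0 := by
    ext P
    exact hcon.elim P
  rw [h1, deg_zero] at h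
  exact lt_irrefl _ h

lemma exists_max_divisor (hF : IsCurveField k F) :
    ∃ D0 : CurvePt k F →₀ ℤ, ∀ D : CurvePt k F →₀ ℤ, deg D - ell D ≤ deg D0 - ell D0 := by
  obtain ⟨γ, hγ⟩ := riemann_inequality hF
  obtain ⟨m, ⟨D0, hD0⟩, hm⟩ := Int.exists_greatest_of_bdd
    (P := fun m : ℤ => ∃ D : CurvePt k F →₀ ℤ, deg D - ell D = m)
    ⟨γ, by rintro _ ⟨D, rfl⟩; exact hγ D⟩ ⟨_, 0, rfl⟩
  exact ⟨D0, fun D => by rw [hD0]; exact hm _ ⟨D, rfl⟩⟩

variable (hF : IsCurveField k F) {D0 : CurvePt k F →₀ ℤ}
  (hD0 : ∀ D : CurvePt k F →₀ ℤ, deg D - ell D ≤ deg D0 - ell D0)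

include hF hD0 in
lemma eq_of_max_le {D : CurvePt k F →₀ ℤ} (h : ∀ P, D0 P ≤ D P) :
    deg D - ell D = deg D0 - ell D0 := by
  have h1 := ell_le_of_le hF h
  have h2 := hD0 D
  omega

include hD0 in
lemma omegaD_eq_bot {D : CurvePt k F →₀ ℤ} (h : ∀ P, D0 P ≤ D P) : omegaD hF D = ⊥ := by
  rw [Submodule.eq_bot_iff]
  intro w hw
  ext α
  obtain ⟨D1, hD1, hα⟩ := exists_bound D α
  have h1 : w ∈ omegaD hF D1 := by
    refine induction_le (motive := fun D' => w ∈ omegaD hF D') D hw ?_ D1 hD1
    intro D' P hD' ih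
    rcases rrSpace_add_point hF D' P with h2 | ⟨f, hf, hf', -⟩
    · exfalso
      have hfd := finiteDimensional_rrSpace hF D'
      have h3 : ell (D' + Finsupp.single P 1 : CurvePt k F →₀ ℤ) ≤ ell D' :=
        Submodule.finrank_mono h2
      have h4 := eq_of_max_le hF hD0 (D := D') (fun Q => (h Q).trans (hD' Q))
      have h5 := hD0 (D' + Finsupp.single P 1)
      rw [deg_add, deg_single] at h5
      omega
    · rw [← omegaD_step_eq hF hf hf']
      exact ih
  exact h1.1 α hα

include hD0 in
/-- the dimension of the space of Weil differentials -/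
lemma finrank_omegaD (D : CurvePt k F →₀ ℤ) :
    FiniteDimensional k (omegaD hF D) ∧
      (finrank k (omegaD hF D) : ℤ) = ell D - deg D + (deg D0 - ell D0) := by
  classical
  -- a common bound
  obtain ⟨D1, h1, h2⟩ : ∃ D1 : CurvePt k F →₀ ℤ, (∀ P, D P ≤ D1 P) ∧ ∀ P, D0 P ≤ D1 P := by
    refine ⟨Finsupp.zipWith (fun a b => max a b) (by simp) D D0, ?_, ?_⟩
    · intro P
      rw [Finsupp.zipWith_apply]
      exact le_max_left _ _
    · intro P
      rw [Finsupp.zipWith_apply]
      exact le_max_right _ _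
  have key : (FiniteDimensional k (omegaD hF D1) ∧
      (finrank k (omegaD hF D1) : ℤ) = ell D1 - deg D1 + (deg D0 - ell D0)) →
      (FiniteDimensional k (omegaD hF D) ∧
      (finrank k (omegaD hF D) : ℤ) = ell D - deg D + (deg D0 - ell D0)) := by
    refine induction_le (motive := fun D' => (FiniteDimensional k (omegaD hF D') ∧
      (finrank k (omegaD hF D') : ℤ) = ell D' - deg D' + (deg D0 - ell D0)) →
      (FiniteDimensional k (omegaD hF D) ∧
      (finrank k (omegaD hF D) : ℤ) = ell D - deg D + (deg D0 - ell D0))) D id ?_ D1 h1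
    rintro D' P - ih ⟨hfd, hfr⟩
    apply ih
    rw [deg_add, deg_single] at hfr
    have hfdR := finiteDimensional_rrSpace hF D'
    have hfdR' := finiteDimensional_rrSpace hF (D' + Finsupp.single P 1 : CurvePt k F →₀ ℤ)
    have hmono : ell D' ≤ ell (D' + Finsupp.single P 1 : CurvePt k F →₀ ℤ) :=
      ell_mono hF (le_add_point D' P)
    have hup := ell_add_point_le hF D' P
    rcases rrSpace_add_point hF D' P with h3 | ⟨f, hf, hf', -⟩
    · have h4 : ell (D' + Finsupp.single P 1 : CurvePt k F →₀ ℤ) ≤ ell D' :=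
        Submodule.finrank_mono h3
      obtain ⟨h5, h6⟩ := omegaD_step_lt hF h3 hfd
      refine ⟨h5, ?_⟩
      rw [h6]
      push_cast
      omega
    · have h4 : ell D' < ell (D' + Finsupp.single P 1 : CurvePt k F →₀ ℤ) := by
        apply Submodule.finrank_lt_finrank_of_lt
        refine lt_of_le_of_ne (rrSpace_mono (le_add_point D' P)) ?_
        intro heq
        rw [← heq] at hf
        exact hf' hf
      rw [omegaD_step_eq hF hf hf']
      exact ⟨hfd, by omega⟩
  apply key
  rw [omegaD_eq_bot hF hD0 h2]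
  refine ⟨inferInstance, ?_⟩
  rw [finrank_bot]
  have := eq_of_max_le hF hD0 h2
  push_cast
  omega

omit [IsAlgClosed k] [CharZero k] in
include hD0 in
lemma riemann_ge (D : CurvePt k F →₀ ℤ) : deg D - (deg D0 - ell D0) ≤ ell D := by
  have := hD0 D
  omega

/-- multiplication of a Weil differential by a function -/
lemma comp_mulF_mem {D D' : CurvePt k F →₀ ℤ} {w : adele k F →ₗ[k] k} (hw : w ∈ omegaD hF D')
    {f : F} (hf : ∀ P, MemO (D' P - D P) P f) : w.comp (mulF hF f) ∈ omegaD hF D := by
  constructor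
  · intro α hα
    rw [LinearMap.comp_apply]
    apply hw.1
    intro P
    have := memO_mul (hf P) (hα P)
    exact memO_mono (by omega) this
  · intro h
    rw [LinearMap.comp_apply]
    have : mulF hF f (diag hF h) = diag hF (f * h) := rfl
    rw [this]
    exact hw.2 _

lemma comp_mulF_add (w : adele k F →ₗ[k] k) (f g : F) :
    w.comp (mulF hF (f + g)) = w.comp (mulF hF f) + w.comp (mulF hF g) := by
  ext α
  rw [LinearMap.add_apply, LinearMap.comp_apply, LinearMap.comp_apply, LinearMap.comp_apply,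
    ← map_add]
  congr 1
  exact Subtype.ext (funext fun P => add_mul _ _ _)

lemma comp_mulF_smul (w : adele k F →ₗ[k] k) (c : k) (f : F) :
    w.comp (mulF hF (c • f)) = c • w.comp (mulF hF f) := by
  ext α
  rw [LinearMap.smul_apply, LinearMap.comp_apply, LinearMap.comp_apply, ← map_smul]
  congr 1
  exact Subtype.ext (funext fun P => smul_mul_assoc _ _ _)

lemma comp_mulF_mul (w : adele k F →ₗ[k] k) (f g : F) :
    (w.comp (mulF hF f)).comp (mulF hF g) = w.comp (mulF hF (f * g)) := by
  ext α
  rw [LinearMap.comp_apply, LinearMap.comp_apply, LinearMap.comp_apply]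
  congr 1
  exact Subtype.ext (funext fun P => (mul_assoc _ _ _).symm)

lemma comp_mulF_one (w : adele k F →ₗ[k] k) : w.comp (mulF hF 1) = w := by
  ext α
  rw [LinearMap.comp_apply]
  congr 1
  exact Subtype.ext (funext fun P => one_mul _)

lemma comp_mulF_zero (w : adele k F →ₗ[k] k) : w.comp (mulF hF 0) = 0 := by
  ext α
  rw [LinearMap.comp_apply]
  have : mulF hF (0 : F) α = 0 := Subtype.ext (funext fun P => zero_mul _)
  rw [this, map_zero]
  rfl

lemma eq_zero_of_comp_mulF {w : adele k F →ₗ[k] k} {f : F} (hf : f ≠ 0)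
    (h : w.comp (mulF hF f) = 0) : w = 0 := by
  have h1 := congrArg (fun v => v.comp (mulF hF f⁻¹)) h
  simp only [comp_mulF_mul, mul_inv_cancel₀ hf, comp_mulF_one, LinearMap.zero_comp] at h1
  exact h1

include hF in
/-- `l(D) = 0` for divisors of negative degree -/
lemma ell_eq_zero (D : CurvePt k F →₀ ℤ) (hD : deg D < 0) : ell D = 0 := by
  by_contra hcon
  have hne : rrSpace D ≠ ⊥ := by
    intro h
    apply hcon
    unfold ell
    rw [h]
    exact finrank_bot k F
  obtain ⟨z, hz, hz0⟩ := Submodule.exists_mem_ne_zero_of_ne_bot hne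
  obtain ⟨E, hE, hE0⟩ := sum_ord_support hF (f := z)
  have h1 : deg (-D) ≤ deg E := by
    apply deg_mono
    intro P
    rw [Finsupp.neg_apply, hE]
    rcases hz P with h | h
    · exact absurd h hz0
    · exact h
  rw [deg_neg, hE0] at h1
  omega

/-- the space of Weil differentials is one-dimensional over `F` -/
lemma proportional_differentials {D1 D2 : CurvePt k F →₀ ℤ} {w1 w2 : adele k F →ₗ[k] k}
    (h1 : w1 ∈ omegaD hF D1) (h2 : w2 ∈ omegaD hF D2) (h0 : w1 ≠ 0) :
    ∃ f : F, w2 = w1.comp (mulF hF f) := by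
  by_contra hcon
  push Not at hcon
  obtain ⟨D0, hD0⟩ := exists_max_divisor hF
  obtain ⟨P⟩ := exists_pt hF
  obtain ⟨n, hn⟩ : ∃ n : ℕ, 3 * (deg D0 - ell D0) - deg D1 - deg D2 < n ∧ 0 < n := by
    refine ⟨(3 * (deg D0 - ell D0) - deg D1 - deg D2).toNat + 1, ?_, by omega⟩
    omega
  let B : CurvePt k F →₀ ℤ := Finsupp.single P (n : ℤ)
  have hB : deg B = n := deg_single _ _
  let Φ : (rrSpace (D1 + B) × rrSpace (D2 + B)) →ₗ[k] omegaD hF (-B) :=
    { toFun := fun p => ⟨w1.comp (mulF hF p.1.1) + w2.comp (mulF hF p.2.1), by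
        apply Submodule.add_mem
        · apply comp_mulF_mem hF h1
          intro Q
          have := p.1.2 Q
          rw [Finsupp.add_apply] at this
          rw [Finsupp.neg_apply, sub_neg_eq_add]
          exact this
        · apply comp_mulF_mem hF h2
          intro Q
          have := p.2.2 Q
          rw [Finsupp.add_apply] at this
          rw [Finsupp.neg_apply, sub_neg_eq_add]
          exact this⟩
      map_add' := by
        intro p q
        apply Subtype.ext
        simp only [Prod.fst_add, Prod.snd_add, Submodule.coe_add, comp_mulF_add]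
        abel
      map_smul' := by
        intro c p
        apply Subtype.ext
        simp only [Prod.smul_fst, Prod.smul_snd, Submodule.coe_smul, comp_mulF_smul,
          RingHom.id_apply, smul_add] }
  have hinj : Function.Injective Φ := by
    refine (injective_iff_map_eq_zero Φ).mpr ?_
    rintro ⟨f1, f2⟩ hp
    have h3 : w1.comp (mulF hF f1.1) + w2.comp (mulF hF f2.1) = 0 := congrArg Subtype.val hp
    have h4 : f2.1 = 0 := by
      by_contra hf2
      have h5 := congrArg (fun v => v.comp (mulF hF f2.1⁻¹)) h3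
      simp only [LinearMap.add_comp, comp_mulF_mul, mul_inv_cancel₀ hf2, comp_mulF_one,
        LinearMap.zero_comp] at h5
      apply hcon (-(f1.1 * f2.1⁻¹))
      have h6 : w1.comp (mulF hF (-(f1.1 * f2.1⁻¹))) + w1.comp (mulF hF (f1.1 * f2.1⁻¹)) = 0 := by
        rw [← comp_mulF_add, neg_add_cancel, comp_mulF_zero]
      have h7 := h5.trans h6.symm
      rw [add_comm] at h7
      exact add_right_cancel h7
    rw [h4, comp_mulF_zero, add_zero] at h3
    have h5 : f1.1 = 0 := by
      by_contra hf1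
      exact h0 (eq_zero_of_comp_mulF hF hf1 h3)
    exact Prod.ext (Subtype.ext h5) (Subtype.ext h4)
  have hfd1 := finiteDimensional_rrSpace hF (D1 + B)
  have hfd2 := finiteDimensional_rrSpace hF (D2 + B)
  obtain ⟨hfd, hfr⟩ := finrank_omegaD hF hD0 (-B)
  have h3 := LinearMap.finrank_le_finrank_of_injective hinj
  have h4 : finrank k (rrSpace (D1 + B) × rrSpace (D2 + B)) = ell (D1 + B) + ell (D2 + B) :=
    Module.finrank_prod
  rw [h4] at h3
  have h5 := riemann_ge hD0 (D1 + B)
  have h6 := riemann_ge hD0 (D2 + B)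
  have h7 : ell (-B) = 0 := ell_eq_zero hF _ (by rw [deg_neg, hB]; omega)
  rw [deg_neg, hB, h7] at hfr
  rw [deg_add, hB] at h5 h6
  omega

include hF in
/-- The Riemann-Roch theorem. -/
theorem riemann_roch : ∃ (γ : ℤ) (W : CurvePt k F →₀ ℤ),
    (∃ D0 : CurvePt k F →₀ ℤ, deg D0 - ell D0 = γ ∧
      ∀ D : CurvePt k F →₀ ℤ, deg D - ell D ≤ γ) ∧
    ∀ D : CurvePt k F →₀ ℤ, (ell D : ℤ) - ell (W - D) = deg D - γ := by
  classical
  obtain ⟨D0, hD0⟩ := exists_max_divisor hF
  obtain ⟨P⟩ := exists_pt hF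
  -- a nonzero differential
  obtain ⟨w, D2, hw, hw0⟩ : ∃ (w : adele k F →ₗ[k] k) (D2 : CurvePt k F →₀ ℤ),
      w ∈ omegaD hF D2 ∧ w ≠ 0 := by
    obtain ⟨n, hn, hn0⟩ : ∃ n : ℕ, -(deg D0 - ell D0) < n ∧ 0 < n :=
      ⟨(-(deg D0 - ell D0)).toNat + 1, by omega, by omega⟩
    obtain ⟨hfd, hfr⟩ := finrank_omegaD hF hD0 (-(Finsupp.single P (n : ℤ)))
    rw [deg_neg, deg_single, ell_eq_zero hF _ (by rw [deg_neg, deg_single]; omega)] at hfr
    have hpos : 0 < finrank k (omegaD hF (-(Finsupp.single P (n : ℤ)))) := by omega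
    have hne : omegaD hF (-(Finsupp.single P (n : ℤ))) ≠ ⊥ := by
      intro h
      rw [h, finrank_bot] at hpos
      exact lt_irrefl _ hpos
    obtain ⟨w, hw, hw0⟩ := Submodule.exists_mem_ne_zero_of_ne_bot hne
    exact ⟨w, _, hw, hw0⟩
  -- the degrees of the divisors bounding `w` are bounded
  have hbdd : ∀ D : CurvePt k F →₀ ℤ, w ∈ omegaD hF D →
      deg D ≤ deg D0 + (deg D0 - ell D0) := by
    intro D hD
    by_contra hcon
    push Not at hcon
    have h1 := riemann_ge hD0 (D - D0)
    rw [deg_sub] at h1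
    have h2 : 0 < ell (D - D0) := by omega
    have hne : rrSpace (D - D0) ≠ ⊥ := by
      intro h
      unfold ell at h2
      rw [h, finrank_bot] at h2
      exact lt_irrefl _ h2
    obtain ⟨z, hz, hz0⟩ := Submodule.exists_mem_ne_zero_of_ne_bot hne
    obtain ⟨D', hD', hdeg'⟩ := exists_shift hF D z⁻¹
    have h3 := ell_equiv (inv_ne_zero hz0) hD'
    have h4 : ∀ Q, D0 Q ≤ D' Q := by
      intro Q
      rw [hD', Q.ord_inv]
      rcases hz Q with h | h
      · exact absurd h hz0
      · rw [Finsupp.sub_apply] at h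
        omega
    have h5 := eq_of_max_le hF hD0 h4
    obtain ⟨hfd, hfr⟩ := finrank_omegaD hF hD0 D
    have h6 : finrank k (omegaD hF D) = 0 := by omega
    have h7 : omegaD hF D = ⊥ := Submodule.finrank_eq_zero.mp h6
    rw [h7] at hD
    exact hw0 hD
  obtain ⟨m, ⟨W, hW, hWdeg⟩, hmax⟩ := Int.exists_greatest_of_bdd
    (P := fun m : ℤ => ∃ D : CurvePt k F →₀ ℤ, w ∈ omegaD hF D ∧ deg D = m)
    ⟨_, by rintro _ ⟨D, hD, rfl⟩; exact hbdd D hD⟩ ⟨_, D2, hw, rfl⟩
  -- `W` is the greatest divisor bounding `w`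
  have hWle : ∀ D : CurvePt k F →₀ ℤ, w ∈ omegaD hF D → ∀ Q, D Q ≤ W Q := by
    intro D hD Q
    by_contra hcon
    push Not at hcon
    have h1 : w ∈ omegaD hF (W + Finsupp.single Q 1) := by
      refine ⟨?_, hw.2⟩
      intro α hα
      obtain ⟨a, ha, haQ, -, hgen⟩ := exists_generator hF W Q
      obtain ⟨c, hc⟩ := hgen α hα
      have h2 := hW.1 _ hc
      have h3 : w a = 0 := by
        apply hD.1
        intro R
        by_cases hR : R = Q
        · subst hR
          have := ha R
          rw [Finsupp.add_apply, Finsupp.single_eq_same] at this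
          exact memO_mono (by omega) this
        · rw [haQ R hR]
          exact memO_zero _ _
      rw [map_sub, map_smul, h3, smul_zero, sub_zero] at h2
      exact h2
    have h2 := hmax _ ⟨_, h1, rfl⟩
    rw [deg_add, deg_single] at h2
    omega
  refine ⟨deg D0 - ell D0, W, ⟨D0, rfl, hD0⟩, ?_⟩
  intro D
  obtain ⟨hfd, hfr⟩ := finrank_omegaD hF hD0 D
  have hdim : ell (W - D) = finrank k (omegaD hF D) := by
    let Ψ : rrSpace (W - D) →ₗ[k] omegaD hF D :=
      { toFun := fun f => ⟨w.comp (mulF hF f.1), by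
          apply comp_mulF_mem hF hW
          intro Q
          exact f.2 Q⟩
        map_add' := fun f g => Subtype.ext (comp_mulF_add hF w f.1 g.1)
        map_smul' := fun c f => Subtype.ext (comp_mulF_smul hF w c f.1) }
    have hbij : Function.Bijective Ψ := by
      constructor
      · refine (injective_iff_map_eq_zero Ψ).mpr ?_
        intro f hf
        have h1 : w.comp (mulF hF f.1) = 0 := congrArg Subtype.val hf
        by_contra hf0
        exact hw0 (eq_zero_of_comp_mulF hF (fun h => hf0 (Subtype.ext h)) h1)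
      · rintro ⟨v, hv⟩
        obtain ⟨f, hf⟩ := proportional_differentials hF hW hv hw0
        rcases eq_or_ne f 0 with rfl | hf0
        · exact ⟨0, Subtype.ext hf.symm⟩
        · obtain ⟨D', hD', -⟩ := exists_shift hF D f
          have h1 : w ∈ omegaD hF D' := by
            have h2 : w = v.comp (mulF hF f⁻¹) := by
              rw [hf, comp_mulF_mul, mul_inv_cancel₀ hf0, comp_mulF_one]
            rw [h2]
            apply comp_mulF_mem hF hv
            intro Q
            right
            rw [hD', Q.ord_inv]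
            omega
          have h2 : f ∈ rrSpace (W - D) := by
            intro Q
            right
            have h3 := hWle D' h1 Q
            rw [hD'] at h3
            rw [Finsupp.sub_apply]
            omega
          exact ⟨⟨f, h2⟩, Subtype.ext hf.symm⟩
    exact (LinearEquiv.ofBijective Ψ hbij).finrank_eq
  rw [hdim, hfr]
  ring

end Pool.Agent.Helper24.Coh
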