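import Mathlib
import Pool.Agent.Helper24.Coh.Main
import Pool.Agent.Helper24.Coh.Weil

/-!
The genus and canonical divisors.
-/

open Module Pool.Agent.Helper11

namespace Pool.Agent.Helper24.Coh

universe u

variable {k F : Type u} [Field k] [Field F] [Algebra k F] [IsAlgClosed k] [CharZero k]

lemma ell_zero (hF : IsCurveField k F) : ell (0 : CurvePt k F →₀ ℤ) = 1 := by
  have h1 : rrSpace (0 : CurvePt k F →₀ ℤ) = Submodule.span k {(1 : F)} := by
    apply le_antisymm
    · intro f hf
      obtain ⟨c, hc⟩ := mem_range_of_regular hF (fun P => by simpa using hf P)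
      rw [Submodule.mem_span_singleton]
      exact ⟨c, by rw [← hc, Algebra.smul_def, mul_one]⟩
    · rw [Submodule.span_singleton_le_iff_mem]
      intro P
      right
      rw [P.ord_one]
      simp
  unfold ell
  rw [h1]
  exact finrank_span_singleton one_ne_zero

/-- The Riemann-Roch theorem for canonical divisors. -/
theorem isGenusCanonical (hF : IsCurveField k F) {W : CurvePt k F →₀ ℤ} (hW : IsCanonical W) :
    IsGenusCanonical (genus k F) W := by
  obtain ⟨γ, W0, ⟨D0, hD0, hmax⟩, hrr⟩ := riemann_roch hF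
  have hγ : 0 ≤ γ + 1 := by
    have := hmax 0
    rw [deg_zero, ell_zero hF] at this
    push_cast at this
    omega
  have hg : (genus k F : ℤ) = γ + 1 := by
    obtain ⟨m, hm⟩ := Int.eq_ofNat_of_zero_le hγ
    have h1 : IsGreatest {n : ℕ | ∃ D : CurvePt k F →₀ ℤ, (n : ℤ) = deg D + 1 - ell D} m := by
      constructor
      · exact ⟨D0, by omega⟩
      · rintro n ⟨D, hD⟩
        have := hmax D
        omega
    have h2 : genus k F = m := h1.csSup_eq
    rw [h2, hm]
  obtain ⟨h1, h2⟩ := hW
  have h3 := hrr W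
  have h4 : ell (W0 - W) = 1 := by omega
  have hne : rrSpace (W0 - W) ≠ ⊥ := by
    intro h
    unfold ell at h4
    rw [h, finrank_bot] at h4
    exact absurd h4 (by norm_num)
  obtain ⟨z, hz, hz0⟩ := Submodule.exists_mem_ne_zero_of_ne_bot hne
  have hW0 : deg W0 = 2 * γ := by
    have h5 := hrr W0
    have h6 := hrr 0
    rw [sub_self] at h5
    rw [sub_zero, deg_zero] at h6
    omega
  obtain ⟨E, hE, hE0⟩ := sum_ord_support hF (f := z)
  have h5 : W - W0 = E := by
    apply eq_of_le_of_deg_le
    · intro P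
      rw [hE, Finsupp.sub_apply]
      rcases hz P with h | h
      · exact absurd h hz0
      · rw [Finsupp.sub_apply] at h
        omega
    · rw [hE0, deg_sub, hW0, h1, hg]
      omega
  intro D
  have h6 : ell (W0 - D) = ell (W - D) := by
    apply ell_equiv hz0
    intro P
    rw [← hE, ← h5, Finsupp.sub_apply, Finsupp.sub_apply, Finsupp.sub_apply]
    ring
  have h7 := hrr D
  rw [h6] at h7
  rw [hg]
  omega

/-- canonical divisors exist -/
theorem exists_isCanonical (hF : IsCurveField k F) : ∃ W : CurvePt k F →₀ ℤ, IsCanonical W := by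
  obtain ⟨γ, W0, ⟨D0, hD0, hmax⟩, hrr⟩ := riemann_roch hF
  have hγ : 0 ≤ γ + 1 := by
    have := hmax 0
    rw [deg_zero, ell_zero hF] at this
    push_cast at this
    omega
  have hg : (genus k F : ℤ) = γ + 1 := by
    obtain ⟨m, hm⟩ := Int.eq_ofNat_of_zero_le hγ
    have h1 : IsGreatest {n : ℕ | ∃ D : CurvePt k F →₀ ℤ, (n : ℤ) = deg D + 1 - ell D} m := by
      constructor
      · exact ⟨D0, by omega⟩
      · rintro n ⟨D, hD⟩
        have := hmax D
        omega
    have h2 : genus k F = m := h1.csSup_eq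
    rw [h2, hm]
  have h5 := hrr W0
  have h6 := hrr 0
  rw [sub_self, ell_zero hF] at h5
  rw [sub_zero, deg_zero, ell_zero hF] at h6
  exact ⟨W0, by omega, by omega⟩

end Pool.Agent.Helper24.Coh
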