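import Mathlib
import Pool.Agent.Helper24.Coh.Main

/-!
On a curve of genus 2 there is no stable bundle of rank 2 with canonical determinant and two
independent sections.
-/

open Module Pool.Agent.Helper11

namespace Pool.Agent.Helper24.Coh

universe u

/-- A rank two bundle of degree `d` is stable: `deg L < d / 2` for every line subbundle `L`. -/
def Bundle.IsStable {k F : Type u} [Field k] [Field F] [Algebra k F] (d : ℤ) (E : Bundle k F) :
    Prop :=
  ∀ s : Fin 2 → F, s ≠ 0 → 2 * E.lineDeg s < d

/-- `U(2, K, n)` is not empty, `K = O(W)`, `n ≥ 2`: there is a coherent system `(E, H)` with `E`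
stable which is in `G(α; 2, K, n)` for all sufficiently large `α`. -/
def UNonempty {k F : Type u} [Field k] [Field F] [Algebra k F] (W : CurvePt k F →₀ ℤ) (n : ℕ) :
    Prop :=
  ∃ (E : Bundle k F) (H : Submodule k (Fin 2 → F)), E.IsStable (deg W) ∧
    ∃ α₀ : ℝ, ∀ α : ℝ, α₀ < α → InG W n α E H

variable {k F : Type u} [Field k] [Field F] [Algebra k F]

lemma mem_stalk_iff {E : Bundle k F} {P : CurvePt k F} {A : Matrix (Fin 2) (Fin 2) F}
    (hA : A.det ≠ 0) (hst : ∀ x, x ∈ E.stalk P ↔ ∃ y : Fin 2 → F, (∀ i, y i ∈ P.ring) ∧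
      x = A.mulVec y) (y : Fin 2 → F) : A.mulVec y ∈ E.stalk P ↔ ∀ i, y i ∈ P.ring := by
  have hAu : IsUnit A.det := isUnit_iff_ne_zero.mpr hA
  rw [hst]
  constructor
  · rintro ⟨z, hz, h⟩
    have h5 : A⁻¹.mulVec (A.mulVec y) = A⁻¹.mulVec (A.mulVec z) := by rw [h]
    rw [Matrix.mulVec_mulVec, Matrix.mulVec_mulVec, Matrix.nonsing_inv_mul _ hAu,
      Matrix.one_mulVec, Matrix.one_mulVec] at h5
    rw [h5]
    exact hz
  · intro h
    exact ⟨y, h, rfl⟩

lemma wedge_mulVec (A : Matrix (Fin 2) (Fin 2) F) (x y : Fin 2 → F) :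
    wedge (A.mulVec x) (A.mulVec y) = A.det * wedge x y := by
  simp only [wedge, Matrix.mulVec, dotProduct, Fin.sum_univ_two, Matrix.det_fin_two]
  ring

variable [IsAlgClosed k] [CharZero k]

lemma exists_const (hF : IsCurveField k F) (P : CurvePt k F) {f h : F}
    (hf : f ∈ P.ring) (h0 : h ≠ 0) (hh : P.ord h = 0) :
    ∃ c : k, MemO (-1) P (f - algebraMap k F c * h) := by
  rcases eq_or_ne f 0 with rfl | hf0
  · exact ⟨0, Or.inl (by simp)⟩
  rw [P.mem_ring_iff hf0] at hf
  rcases hf.lt_or_eq with hlt | heq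
  · refine ⟨0, Or.inr ?_⟩
    rw [map_zero, zero_mul, sub_zero]
    omega
  · have h1 : P.ord (f / h) = 0 := by
      rw [div_eq_mul_inv, P.ord_mul hf0 (inv_ne_zero h0), P.ord_inv, hh, ← heq]
      simp
    obtain ⟨c, hc⟩ := exists_residue hF P (div_ne_zero hf0 h0) h1
    refine ⟨c, ?_⟩
    have h2 : f - algebraMap k F c * h = (f / h - algebraMap k F c) * h := by
      rw [sub_mul, div_mul_cancel₀ _ h0]
    rw [h2]
    have h3 := memO_mul hc (Or.inr (by rw [hh]; simp) : MemO 0 P h)
    simpa using h3

/-- if `u ∧ v` vanishes at `P` then so does a nonzero combination of `u` and `v` -/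
lemma exists_combination (hF : IsCurveField k F) (P : CurvePt k F) {u v : Fin 2 → F}
    (hu : ∀ i, u i ∈ P.ring) (hv : ∀ i, v i ∈ P.ring) (hw : MemO (-1) P (wedge u v)) :
    ∃ a b : k, (a ≠ 0 ∨ b ≠ 0) ∧ ∀ i, MemO (-1) P (algebraMap k F a * u i + algebraMap k F b * v i) := by
  by_cases hcase : ∀ i, MemO (-1) P (u i)
  · exact ⟨1, 0, Or.inl one_ne_zero, fun i => by simpa using hcase i⟩
  · push Not at hcase
    obtain ⟨i, hi⟩ := hcase
    rw [MemO, not_or] at hi
    have hi1 := (P.mem_ring_iff hi.1).mp (hu i)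
    have hi2 : P.ord (u i) = 0 := by omega
    obtain ⟨c, hc⟩ := exists_const hF P (hv i) hi.1 hi2
    refine ⟨-c, 1, Or.inr one_ne_zero, ?_⟩
    have hother : ∀ j, j ≠ i → MemO (-1) P (v j - algebraMap k F c * u j) := by
      intro j hj
      have h1 : MemO (-1) P (u i * v j - u j * v i) := by
        have h2 : u i * v j - u j * v i = wedge u v ∨ u i * v j - u j * v i = - wedge u v := by
          unfold wedge
          fin_cases i <;> fin_cases j
          · exact absurd rfl hj
          · left; simp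
          · right; simp only [Fin.zero_eta, Fin.mk_one]; ring
          · exact absurd rfl hj
        rcases h2 with h2 | h2 <;> rw [h2]
        · exact hw
        · exact memO_neg hw
      have h3 : v j - algebraMap k F c * u j =
          (u i)⁻¹ * ((u i * v j - u j * v i) + u j * (v i - algebraMap k F c * u i)) := by
        have := hi.1
        field_simp
        ring
      rw [h3]
      have h4 : MemO 0 P (u i)⁻¹ := Or.inr (by rw [P.ord_inv, hi2])
      have h5 : MemO (-1) P (u j * (v i - algebraMap k F c * u i)) := by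
        have := memO_mul (memO_zero_iff.mpr (hu j)) hc
        simpa using this
      have := memO_mul h4 (memO_add h1 h5)
      simpa using this
    intro j
    have h6 : algebraMap k F (-c) * u j + algebraMap k F 1 * v j = v j - algebraMap k F c * u j := by
      rw [map_neg, map_one]; ring
    rw [h6]
    by_cases hj : j = i
    · subst hj; exact hc
    · exact hother j hj

theorem no_sections_genus_two (hF : IsCurveField k F) {W : CurvePt k F →₀ ℤ}
    (hW : IsGenusCanonical 2 W) {E : Bundle k F} (hdet : E.DetIso W)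
    (hst : E.IsStable (deg W)) {H : Submodule k (Fin 2 → F)} (hH : E.IsSections H) :
    finrank k H ≠ 2 := by
  classical
  intro hdim
  have hdW := deg_canonical hW
  have hfd : FiniteDimensional k H := FiniteDimensional.of_finrank_pos (by omega)
  -- a section has nonnegative order everywhere, so every section vanishes nowhere
  have hnonneg : ∀ s ∈ H, s ≠ 0 → ∀ P, 0 ≤ E.lineOrd P s := by
    intro s hs hs0 P
    have h1 := (isOrd_lineOrd E P hs0 1 one_ne_zero).mp (by rw [one_smul]; exact hH s hs P)
    rw [P.ord_one] at h1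
    omega
  have hzero : ∀ s ∈ H, s ≠ 0 → ∀ P, E.lineOrd P s = 0 := by
    intro s hs hs0 P
    obtain ⟨D, hD, hDdeg⟩ := exists_lineDiv hF E hs0
    have h1 := hst s hs0
    rw [hdW] at h1
    have h2 : (0 : CurvePt k F →₀ ℤ) = D := by
      apply eq_of_le_of_deg_le
      · intro Q
        rw [hD]
        exact hnonneg s hs hs0 Q
      · rw [deg_zero, hDdeg]
        omega
    rw [← hD, ← h2]
    rfl
  obtain ⟨b⟩ : Nonempty (Basis (Fin 2) k H) := ⟨finBasisOfFinrankEq k H hdim⟩
  set x : Fin 2 → F := (b 0 : Fin 2 → F) with hx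
  set y : Fin 2 → F := (b 1 : Fin 2 → F) with hy
  have hcomb : ∀ a c : k, a ≠ 0 ∨ c ≠ 0 → a • x + c • y ≠ 0 ∧ a • x + c • y ∈ H := by
    intro a c hac
    refine ⟨?_, H.add_mem (H.smul_mem _ (b 0).2) (H.smul_mem _ (b 1).2)⟩
    intro h
    have h1 : a • b 0 + c • b 1 = 0 := Subtype.ext h
    have h2 := b.linearIndependent
    rw [Fintype.linearIndependent_iff] at h2
    have h3 := h2 ![a, c] (by simpa [Fin.sum_univ_two] using h1)
    have h4 := h3 0
    have h5 := h3 1
    simp at h4 h5
    tauto
  obtain ⟨c, hc0, hc⟩ := hdet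
  have hx0 : x ≠ 0 := by simpa using (hcomb 1 0 (Or.inl one_ne_zero)).1
  have hxH : x ∈ H := (b 0).2
  have hyH : y ∈ H := (b 1).2
  by_cases hw : wedge x y = 0
  · obtain ⟨f, hf⟩ := exists_smul_of_wedge_eq_zero hx0 hw
    have hreg : ∀ P : CurvePt k F, MemO 0 P f := by
      intro P
      rcases eq_or_ne f 0 with rfl | hf0
      · exact memO_zero _ _
      · have h1 := (isOrd_lineOrd E P hx0 f hf0).mp (by rw [← hf]; exact hH y hyH P)
        rw [hzero x hxH hx0 P] at h1
        exact Or.inr h1
    obtain ⟨a, ha⟩ := mem_range_of_regular hF hreg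
    apply (hcomb (-a) 1 (Or.inr one_ne_zero)).1
    rw [hf, ← ha, one_smul, neg_smul, neg_add_eq_zero]
    ext i
    simp [Algebra.smul_def]
  · -- `x ∧ y` is a nonzero section of `O(W)`, of degree 2, so it vanishes somewhere
    have hcw : c * wedge x y ≠ 0 := mul_ne_zero hc0 hw
    have hsec : ∀ P : CurvePt k F, MemO (W P) P (c * wedge x y) := fun P =>
      (hc P _).mp ⟨x, hH x hxH P, y, hH y hyH P, rfl⟩
    obtain ⟨G, hG, hG0⟩ := sum_ord_support hF (f := c * wedge x y)
    obtain ⟨P, hP⟩ : ∃ P : CurvePt k F, MemO (W P - 1) P (c * wedge x y) := by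
      by_contra hcon
      push Not at hcon
      have h1 : -W = G := by
        ext P
        have h2 := hcon P
        rw [MemO, not_or] at h2
        rcases hsec P with h3 | h3
        · exact absurd h3 hcw
        · rw [Finsupp.neg_apply, hG]
          have := h2.2
          omega
      have h2 := deg_neg W
      rw [h1, hG0, hdW] at h2
      norm_num at h2
    obtain ⟨A, hA, hAst⟩ := E.loc_free P
    have hAu : IsUnit A.det := isUnit_iff_ne_zero.mpr hA
    -- the order of `c det A` at `P` is `-W P`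
    have hordA : P.ord (c * A.det) ≤ -W P := by
      obtain ⟨f, hf0, hf⟩ := exists_ord_eq P (-W P)
      obtain ⟨x', hx', y', hy', hxy⟩ := (hc P f).mpr (Or.inr (by omega))
      obtain ⟨u, hu, rfl⟩ := (hAst x').mp hx'
      obtain ⟨v, hv, rfl⟩ := (hAst y').mp hy'
      rw [wedge_mulVec, ← mul_assoc] at hxy
      have h1 : wedge u v ≠ 0 := by
        intro h
        rw [h, mul_zero] at hxy
        exact hf0 hxy
      have h2 : MemO 0 P (wedge u v) := by
        rw [wedge]
        apply memO_sub
        · simpa using memO_mul (memO_zero_iff.mpr (hu 0)) (memO_zero_iff.mpr (hv 1))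
        · simpa using memO_mul (memO_zero_iff.mpr (hu 1)) (memO_zero_iff.mpr (hv 0))
      rcases h2 with h2 | h2
      · exact absurd h2 h1
      · rw [hxy, P.ord_mul (mul_ne_zero hc0 hA) h1] at hf
        omega
    set u : Fin 2 → F := A⁻¹.mulVec x with hu
    set v : Fin 2 → F := A⁻¹.mulVec y with hv
    have hxu : x = A.mulVec u := by
      rw [hu, Matrix.mulVec_mulVec, Matrix.mul_nonsing_inv _ hAu, Matrix.one_mulVec]
    have hyv : y = A.mulVec v := by
      rw [hv, Matrix.mulVec_mulVec, Matrix.mul_nonsing_inv _ hAu, Matrix.one_mulVec]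
    have hur : ∀ i, u i ∈ P.ring := (mem_stalk_iff hA hAst u).mp (by rw [← hxu]; exact hH x hxH P)
    have hvr : ∀ i, v i ∈ P.ring := (mem_stalk_iff hA hAst v).mp (by rw [← hyv]; exact hH y hyH P)
    have hwuv : MemO (-1) P (wedge u v) := by
      rw [hxu, hyv, wedge_mulVec, ← mul_assoc] at hP hcw
      have h1 : wedge u v ≠ 0 := (mul_ne_zero_iff.mp hcw).2
      rcases hP with h2 | h2
      · exact absurd h2 hcw
      · rw [P.ord_mul (mul_ne_zero hc0 hA) h1] at h2
        right
        omega
    obtain ⟨a, d, had, hcomb'⟩ := exists_combination hF P hur hvr hwuv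
    obtain ⟨hs0, hsH⟩ := hcomb a d had
    have hs : a • x + d • y = A.mulVec (a • u + d • v) := by
      rw [Matrix.mulVec_add, hxu, hyv]
      congr 1
      · ext i
        simp only [Pi.smul_apply, Matrix.mulVec, dotProduct, Algebra.smul_def, Fin.sum_univ_two]
        ring
      · ext i
        simp only [Pi.smul_apply, Matrix.mulVec, dotProduct, Algebra.smul_def, Fin.sum_univ_two]
        ring
    obtain ⟨t, ht0, ht⟩ := exists_ord_eq P (-1)
    have hmem : t • (a • x + d • y) ∈ E.stalk P := by
      rw [hs, ← Matrix.mulVec_smul, mem_stalk_iff hA hAst]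
      intro i
      have h1 := hcomb' i
      have h2 : MemO 1 P t := Or.inr (by omega)
      have h3 := memO_mul h2 h1
      rw [show (1 : ℤ) + -1 = 0 by norm_num, memO_zero_iff] at h3
      simpa [Algebra.smul_def] using h3
    have h4 := (isOrd_lineOrd E P hs0 t ht0).mp hmem
    rw [hzero _ hsH hs0 P, ht] at h4
    omega

theorem not_uNonempty_genus_two (hF : IsCurveField k F) {W : CurvePt k F →₀ ℤ}
    (hW : IsGenusCanonical 2 W) : ¬ UNonempty W 2 := by
  rintro ⟨E, H, hst, α₀, hα⟩
  have h := hα (α₀ + 1) (by linarith)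
  exact no_sections_genus_two hF hW h.det hst h.sections h.dim

end Pool.Agent.Helper24.Coh
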