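import Mathlib

/-!
Linear algebra: a subspace of `k^m ⊕ k^m` which meets every member of a pencil in small dimension.
-/

open Module

namespace Pool.Agent.Helper24.Coh

variable {k : Type*} [Field k]

/-- the pencil of maps `x ↦ (x_{j+1} - c x_j)_{j < e}` -/
def pencil {m e : ℕ} (h : e + 1 ≤ m) (c : k) : (Fin m → k) →ₗ[k] (Fin e → k) where
  toFun x := fun j => x ⟨j + 1, by omega⟩ - c * x ⟨j, by omega⟩
  map_add' x y := by
    ext j
    simp only [Pi.add_apply]
    ring
  map_smul' a x := by
    ext j
    simp only [Pi.smul_apply, smul_eq_mul, RingHom.id_apply]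
    ring

/-- the member at infinity of the pencil -/
def pencilInf {m e : ℕ} (h : e + 1 ≤ m) : (Fin m → k) →ₗ[k] (Fin e → k) where
  toFun x := fun j => x ⟨j, by omega⟩
  map_add' _ _ := rfl
  map_smul' _ _ := rfl

/-- the equations `x_{j+1} = y_j` -/
def kron {m e : ℕ} (h : e + 1 ≤ m) : ((Fin m → k) × (Fin m → k)) →ₗ[k] (Fin e → k) where
  toFun p := fun j => p.1 ⟨j + 1, by omega⟩ - p.2 ⟨j, by omega⟩
  map_add' p q := by
    ext j
    simp only [Prod.fst_add, Prod.snd_add, Pi.add_apply]
    ring
  map_smul' a p := by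
    ext j
    simp only [Prod.smul_fst, Prod.smul_snd, Pi.smul_apply, smul_eq_mul, RingHom.id_apply]
    ring

lemma pencil_surjective {m e : ℕ} (h : e + 1 ≤ m) (he : e = 1 ∨ e = 2) (c : k) :
    Function.Surjective (pencil h c) := by
  intro z
  rcases he with rfl | rfl
  · refine ⟨fun i => if i.val = 1 then z 0 else 0, ?_⟩
    ext j
    fin_cases j
    simp [pencil]
  · refine ⟨fun i => if i.val = 1 then z 0 else if i.val = 2 then z 1 + c * z 0 else 0, ?_⟩
    ext j
    fin_cases j <;> simp [pencil]

lemma pencilInf_surjective {m e : ℕ} (h : e + 1 ≤ m) :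
    Function.Surjective (pencilInf (k := k) h) := by
  intro z
  refine ⟨fun i => if hi : i.val < e then z ⟨i, hi⟩ else 0, ?_⟩
  ext j
  simp [pencilInf]

lemma kron_surjective {m e : ℕ} (h : e + 1 ≤ m) : Function.Surjective (kron (k := k) h) := by
  intro z
  obtain ⟨y, hy⟩ := pencilInf_surjective h (-z)
  refine ⟨(0, y), ?_⟩
  ext j
  have := congrFun hy j
  simp only [pencilInf, LinearMap.coe_mk, AddHom.coe_mk, Pi.neg_apply] at this
  simp [kron, this]

lemma finrank_ker_pencil {m e : ℕ} (h : e + 1 ≤ m) (he : e = 1 ∨ e = 2) (c : k) :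
    finrank k (LinearMap.ker (pencil h c)) + e = m := by
  have h1 := LinearMap.finrank_range_add_finrank_ker (pencil h c)
  rw [LinearMap.range_eq_top.mpr (pencil_surjective h he c), finrank_top] at h1
  simp only [Module.finrank_fintype_fun_eq_card, Fintype.card_fin] at h1
  omega

lemma finrank_ker_pencilInf {m e : ℕ} (h : e + 1 ≤ m) :
    finrank k (LinearMap.ker (pencilInf (k := k) h)) + e = m := by
  have h1 := LinearMap.finrank_range_add_finrank_ker (pencilInf (k := k) h)
  rw [LinearMap.range_eq_top.mpr (pencilInf_surjective h), finrank_top] at h1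
  simp only [Module.finrank_fintype_fun_eq_card, Fintype.card_fin] at h1
  omega

lemma finrank_ker_kron {m e : ℕ} (h : e + 1 ≤ m) :
    finrank k (LinearMap.ker (kron (k := k) h)) + e = m + m := by
  have h1 := LinearMap.finrank_range_add_finrank_ker (kron (k := k) h)
  rw [LinearMap.range_eq_top.mpr (kron_surjective h), finrank_top] at h1
  simp only [Module.finrank_prod, Module.finrank_fintype_fun_eq_card, Fintype.card_fin] at h1
  omega

end Pool.Agent.Helper24.Coh
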