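import Mathlib
import Pool.Agent.Helper24.Coh.Kron
import Pool.Agent.Helper24.Coh.Stable

/-!
Stable coherent systems on `O(M) ⊕ O(W - M)`, `deg M = g - 1`, with any number `n ≥ 3` of sections
with `n ≤ 2 l(M) - 1`.
-/

open Module Pool.Agent.Helper11

namespace Pool.Agent.Helper24.Coh

universe u

variable {k F : Type u} [Field k] [Field F] [Algebra k F] [IsAlgClosed k] [CharZero k]

/-- compatible independent families in `L(M)` and `L(N)` -/
lemma exists_families (hF : IsCurveField k F) {M N : CurvePt k F →₀ ℤ}
    (hd : deg M = deg N) {m : ℕ} (hM : m ≤ ell M) (hN : m ≤ ell N) :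
    ∃ (f : Fin m → rrSpace M) (g : Fin m → rrSpace N), LinearIndependent k f ∧
      LinearIndependent k g ∧
      ∀ (h : F) (hh : h ∈ rrSpace (N - M)), ∃ c : k, ∀ i, mulMap h hh (f i) = c • g i := by
  have hfM := finiteDimensional_rrSpace hF M
  have hfN := finiteDimensional_rrSpace hF N
  let b : Basis (Fin (ell M)) k (rrSpace M) := finBasis k (rrSpace M)
  let b' : Basis (Fin (ell N)) k (rrSpace N) := finBasis k (rrSpace N)
  have hb : LinearIndependent k (fun i : Fin m => b (Fin.castLE hM i)) :=
    b.linearIndependent.comp _ (Fin.castLE_injective hM)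
  by_cases hcase : ∃ h ∈ rrSpace (N - M), h ≠ 0
  · obtain ⟨h0, hh0, hne⟩ := hcase
    have hinj : LinearMap.ker (mulMap h0 hh0) = ⊥ := by
      rw [LinearMap.ker_eq_bot]
      intro f g hfg
      have h1 := congrArg Subtype.val hfg
      exact Subtype.ext (mul_left_cancel₀ hne h1)
    refine ⟨fun i => b (Fin.castLE hM i), fun i => mulMap h0 hh0 (b (Fin.castLE hM i)), hb,
      hb.map' _ hinj, ?_⟩
    intro h hh
    obtain ⟨c, hc⟩ := proportional_of_deg_zero hF (D := N - M) (by rw [deg_sub]; omega) hne hh0 hh
    refine ⟨c, fun i => ?_⟩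
    apply Subtype.ext
    change h * _ = c • (h0 * _)
    rw [hc, smul_mul_assoc]
  · push Not at hcase
    refine ⟨fun i => b (Fin.castLE hM i), fun i => b' (Fin.castLE hN i), hb,
      b'.linearIndependent.comp _ (Fin.castLE_injective hN), ?_⟩
    intro h hh
    refine ⟨0, fun i => ?_⟩
    rw [zero_smul]
    apply Subtype.ext
    change h * _ = 0
    rw [hcase h hh, zero_mul]

/-- the map from coordinates to sections of `O(M) ⊕ O(N)` -/
noncomputable def coordMap {M N : CurvePt k F →₀ ℤ} {m : ℕ} (f : Fin m → rrSpace M)
    (g : Fin m → rrSpace N) : ((Fin m → k) × (Fin m → k)) →ₗ[k] (Fin 2 → F) where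
  toFun p := ![((∑ i, p.1 i • f i : rrSpace M) : F), ((∑ i, p.2 i • g i : rrSpace N) : F)]
  map_add' p q := by
    ext i
    fin_cases i <;> simp [add_smul, Finset.sum_add_distrib]
  map_smul' c p := by
    ext i
    fin_cases i <;> simp [mul_smul, Finset.smul_sum]

omit [IsAlgClosed k] [CharZero k] in
lemma coordMap_zero {M N : CurvePt k F →₀ ℤ} {m : ℕ} (f : Fin m → rrSpace M)
    (g : Fin m → rrSpace N) (p : (Fin m → k) × (Fin m → k)) :
    coordMap f g p 0 = ((∑ i, p.1 i • f i : rrSpace M) : F) := rfl

omit [IsAlgClosed k] [CharZero k] in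
lemma coordMap_one {M N : CurvePt k F →₀ ℤ} {m : ℕ} (f : Fin m → rrSpace M)
    (g : Fin m → rrSpace N) (p : (Fin m → k) × (Fin m → k)) :
    coordMap f g p 1 = ((∑ i, p.2 i • g i : rrSpace N) : F) := rfl

omit [IsAlgClosed k] [CharZero k] in
lemma coordMap_injective {M N : CurvePt k F →₀ ℤ} {m : ℕ} {f : Fin m → rrSpace M}
    {g : Fin m → rrSpace N} (hf : LinearIndependent k f) (hg : LinearIndependent k g) :
    Function.Injective (coordMap f g) := by
  refine (injective_iff_map_eq_zero _).mpr ?_
  intro p hp
  have h0 : (∑ i, p.1 i • f i : rrSpace M) = 0 := Subtype.ext (congrFun hp 0)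
  have h1 : (∑ i, p.2 i • g i : rrSpace N) = 0 := Subtype.ext (congrFun hp 1)
  have h2 := Fintype.linearIndependent_iff.mp hf _ h0
  have h3 := Fintype.linearIndependent_iff.mp hg _ h1
  exact Prod.ext (funext h2) (funext h3)

omit [IsAlgClosed k] [CharZero k] in
/-- bound for the dimension of a subspace of the range of an injective map -/
lemma finrank_le_of_proj {m : ℕ} {ι : ((Fin m → k) × (Fin m → k)) →ₗ[k] (Fin 2 → F)}
    (hι : Function.Injective ι) {K : Submodule k ((Fin m → k) × (Fin m → k))}
    {U : Submodule k (Fin 2 → F)} (hU : U ≤ K.map ι)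
    (π : ((Fin m → k) × (Fin m → k)) →ₗ[k] (Fin m → k)) (Z : Submodule k (Fin m → k))
    (hZ : ∀ p ∈ K, ι p ∈ U → π p ∈ Z) (hinj : ∀ p ∈ K, ι p ∈ U → π p = 0 → p = 0) :
    finrank k U ≤ finrank k Z := by
  let V : Submodule k ((Fin m → k) × (Fin m → k)) := K ⊓ U.comap ι
  have h1 : V.map ι = U := by
    apply le_antisymm
    · rintro _ ⟨p, ⟨-, hp⟩, rfl⟩
      exact hp
    · intro x hx
      obtain ⟨p, hp, rfl⟩ := hU hx
      exact ⟨p, ⟨hp, hx⟩, rfl⟩
  have h2 : finrank k U = finrank k V := by
    rw [← h1]
    exact (Submodule.equivMapOfInjective ι hι V).symm.finrank_eq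
  rw [h2]
  let ψ : V →ₗ[k] Z := LinearMap.codRestrict Z (π.comp V.subtype) (by
    intro p
    exact hZ p.1 p.2.1 p.2.2)
  apply LinearMap.finrank_le_finrank_of_injective (f := ψ)
  refine (injective_iff_map_eq_zero ψ).mpr ?_
  intro p hp
  exact Subtype.ext (hinj p.1 p.2.1 p.2.2 (congrArg Subtype.val hp))

theorem gZero_of_split_any (hF : IsCurveField k F) {M W : CurvePt k F →₀ ℤ}
    (hd : deg M = deg (W - M)) {m e : ℕ} (hM : m ≤ ell M) (hN : m ≤ ell (W - M))
    (hem : e + 1 ≤ m) (he : e = 1 ∨ e = 2) :
    GZeroNonempty W (2 * m - e) := by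
  obtain ⟨f, g, hf, hg, hfg⟩ := exists_families hF hd hM hN
  have hι := coordMap_injective hf hg
  let K : Submodule k ((Fin m → k) × (Fin m → k)) := LinearMap.ker (kron hem)
  have hK : finrank k K + e = m + m := finrank_ker_kron hem
  let H : Submodule k (Fin 2 → F) := K.map (coordMap f g)
  have hH : finrank k H = 2 * m - e := by
    have : finrank k H = finrank k K := (Submodule.equivMapOfInjective _ hι K).symm.finrank_eq
    omega
  have hWd : deg W = 2 * deg M := by
    rw [deg_sub] at hd
    omega
  have hH' : (finrank k H : ℝ) = 2 * m - e := by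
    rw [hH, Nat.cast_sub (by omega)]
    push_cast
    ring
  have hm : (1 : ℝ) ≤ m := by
    have : 1 ≤ m := by omega
    exact_mod_cast this
  have he' : (1 : ℝ) ≤ e := by
    have : 1 ≤ e := by omega
    exact_mod_cast this
  refine ⟨splitBundle M (W - M), H, 1 / (2 * m), by positivity, ?_⟩
  intro α hα hα'
  refine ⟨splitBundle_detIso M W, ?_, hH, ?_, ?_⟩
  · rintro _ ⟨p, -, rfl⟩ P
    rw [mem_splitBundle, coordMap_zero, coordMap_one]
    exact ⟨(∑ i, p.1 i • f i : rrSpace M).2 P, (∑ i, p.2 i • g i : rrSpace (W - M)).2 P⟩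
  · intro s hs U hU hUs
    rw [hH', hWd]
    have key1 : ∀ (d : ℤ), d = deg M → finrank k U + e ≤ m →
        (d : ℝ) + α * finrank k U < ((2 * deg M : ℤ) + α * (2 * m - e)) / 2 := by
      intro d hdd hu
      have hu' : (finrank k U : ℝ) + e ≤ m := by exact_mod_cast hu
      rw [hdd]
      push_cast
      nlinarith
    by_cases h0 : s 0 = 0
    · have h1 : s 1 ≠ 0 := by
        intro h1
        apply hs
        ext i
        fin_cases i
        · exact h0
        · exact h1
      apply key1 _ (by rw [splitBundle_lineDeg_zero hF h0 h1, hd])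
      rw [← finrank_ker_pencilInf (k := k) hem]
      apply Nat.add_le_add_right
      have hx : ∀ p : (Fin m → k) × (Fin m → k), coordMap f g p ∈ U → p.1 = 0 := by
        intro p hp
        obtain ⟨r, hr⟩ := hUs _ hp
        have h2 : (∑ i, p.1 i • f i : rrSpace M) = 0 := by
          apply Subtype.ext
          rw [← coordMap_zero f g, hr, Pi.smul_apply, h0, smul_zero]
          rfl
        exact funext (Fintype.linearIndependent_iff.mp hf _ h2)
      apply finrank_le_of_proj hι hU (LinearMap.snd k _ _)
      · intro p hp hpU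
        rw [LinearMap.mem_ker]
        ext j
        have h2 := congrFun (LinearMap.mem_ker.mp hp) j
        simp only [kron, LinearMap.coe_mk, AddHom.coe_mk, hx p hpU, Pi.zero_apply, zero_sub,
          neg_eq_zero] at h2
        exact h2
      · intro p hp hpU h2
        exact Prod.ext (hx p hpU) h2
    · obtain ⟨hle, heq⟩ := splitBundle_lineDeg_ne_zero hF (M := M) (N := W - M) h0
      rcases hle.lt_or_eq with hlt | heq'
      · have h3 : ((splitBundle M (W - M)).lineDeg s : ℝ) ≤ deg M - 1 := by
          have : (splitBundle M (W - M)).lineDeg s ≤ deg M - 1 := by omega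
          exact_mod_cast this
        have hfin : FiniteDimensional k H := FiniteDimensional.of_finrank_pos (by omega)
        have h4 : (finrank k U : ℝ) ≤ 2 * m - e := by
          rw [← hH']
          exact_mod_cast Submodule.finrank_mono hU
        have h5 : α * (2 * m) < 1 := by
          rw [lt_div_iff₀ (by positivity)] at hα'
          exact hα'
        push_cast
        nlinarith
      · apply key1 _ heq'
        have hh : s 1 / s 0 ∈ rrSpace (W - M - M) := heq heq'
        obtain ⟨c, hc⟩ := hfg _ hh
        rw [← finrank_ker_pencil hem he c]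
        apply Nat.add_le_add_right
        have hx : ∀ p : (Fin m → k) × (Fin m → k), coordMap f g p ∈ U → p.2 = c • p.1 := by
          intro p hp
          obtain ⟨r, hr⟩ := hUs _ hp
          have h2 : (∑ i, (p.2 i - c * p.1 i) • g i : rrSpace (W - M)) = 0 := by
            have h3 : (∑ i, p.2 i • g i : rrSpace (W - M)) =
                mulMap (s 1 / s 0) hh (∑ i, p.1 i • f i) := by
              apply Subtype.ext
              change _ = s 1 / s 0 * ((∑ i, p.1 i • f i : rrSpace M) : F)
              rw [← coordMap_zero f g, ← coordMap_one f g, hr, Pi.smul_apply, Pi.smul_apply,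
                smul_eq_mul, smul_eq_mul]
              field_simp
            have h4 : (∑ i, (p.2 i - c * p.1 i) • g i : rrSpace (W - M)) =
                (∑ i, p.2 i • g i) - ∑ i, p.1 i • (c • g i) := by
              rw [← Finset.sum_sub_distrib]
              apply Finset.sum_congr rfl
              intro i _
              module
            rw [h4, h3, map_sum, sub_eq_zero]
            apply Finset.sum_congr rfl
            intro i _
            rw [map_smul, hc]
          have h3 := Fintype.linearIndependent_iff.mp hg _ h2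
          ext i
          have h4 := h3 i
          rw [Pi.smul_apply, smul_eq_mul]
          linear_combination h4
        apply finrank_le_of_proj hι hU (LinearMap.fst k _ _)
        · intro p hp hpU
          rw [LinearMap.mem_ker]
          ext j
          have h2 := congrFun (LinearMap.mem_ker.mp hp) j
          simp only [kron, LinearMap.coe_mk, AddHom.coe_mk, hx p hpU, Pi.zero_apply,
            Pi.smul_apply, smul_eq_mul] at h2
          exact h2
        · intro p hp hpU h2
          have h3 : p.1 = 0 := h2
          have h4 := hx p hpU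
          rw [h3, smul_zero] at h4
          exact Prod.ext h3 h4
  · intro U hU
    have hfin : FiniteDimensional k H := FiniteDimensional.of_finrank_pos (by omega)
    have h3 : finrank k U < finrank k H := Submodule.finrank_lt_finrank_of_lt hU
    have h4 : (finrank k U : ℝ) < finrank k H := by exact_mod_cast h3
    have h5 : α * finrank k U < α * finrank k H := mul_lt_mul_of_pos_left h4 hα
    linarith

end Pool.Agent.Helper24.Coh
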